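import Pool.Agent.TH107.RF.Res

set_option autoImplicit false

namespace Pool.Agent.TH107.RF

open Matrix

section
variable {S : Type*} [Fintype S] [DecidableEq S] {M : CoxeterMatrix S}
variable {L : Type*} [CommRing L] (P : Par M L)

/-- parabolic subgroups are detected by the columns of the generic matrix -/
theorem col_detect [IsDomain L] (hP : HasP P) (X : Set S) (k : ℕ) : ∀ g ∈ Prods M k,
    (∀ x s, s ∉ X → CG P g x s = 0) → g ∈ cl M X := by
  induction k with
  | zero =>
    intro g hg _
    have : g = 1 := hg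
    rw [this]; exact one_mem _
  | succ k ih =>
    intro g hg hcol
    obtain ⟨R, hR, h, hh, r, hr, e, hc⟩ := step P hP k g hg
    have hRX : R ⊆ X := by
      intro s hs
      by_contra hsX
      obtain ⟨x, w, -, hne⟩ := hc s hs
      rw [hcol x s hsX] at hne
      exact hne (by simp)
    have hrX : r ∈ cl M X := cl_mono hRX hr
    have hhX : h ∈ cl M X := by
      apply ih h hh
      intro x s hs
      have e2 : h = g * r⁻¹ := by rw [e]; group
      rw [e2, CG, Cm_mul, Matrix.add_apply, Matrix.add_apply]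
      have z : ∀ a, Cm P (bf S L) r⁻¹ a s = 0 := fun a =>
        supp_Cm P _ (inv_mem hrX) a s (fun h' => hs h'.2)
      have z2 : Cm P (bf S L) g x s = 0 := hcol x s hs
      rw [z, z2, Matrix.mul_apply, Finset.sum_eq_zero, add_zero, add_zero]
      intro a _
      rw [z, mul_zero]
    rw [e]
    exact mul_mem hhX hrX

theorem detect [IsDomain L] (hP : HasP P) {X : Set S} {g : Art M} (hg : g ∉ cl M X) :
    ∃ (x s : S) (w : FreeMonoid (S × S)), s ∉ X ∧ (CG P g x s).coeff w ≠ 0 := by
  obtain ⟨k, hk⟩ := exists_prods g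
  by_contra hcon
  push Not at hcon
  apply hg
  apply col_detect P hP X k g hk
  intro x s hs
  apply MonoidAlgebra.coeff_injective
  ext w
  rw [hcon x s w hs]
  simp

end

section base
variable {S : Type*} [Fintype S] [DecidableEq S] (M : CoxeterMatrix S)

/-- detection over the base ring -/
theorem detect_base (hR : RankTwo M) {X : Set S} {g : Art M} (hg : g ∉ cl M X) :
    ∃ (x s : S) (w : FreeMonoid (S × S)), s ∉ X ∧ (CG (PA M) g x s).coeff w ≠ 0 := by
  obtain ⟨x, s, w, hs, h⟩ := detect (PR M) (hasP hR) hg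
  refine ⟨x, s, w, hs, fun h0 => h ?_⟩
  have e : CG (PR M) g = (CG (PA M) g).map
      (MonoidAlgebra.mapRingHom (FreeMonoid (S × S)) (AA M).val.toRingHom) := by
    apply Cm_nat
    intro a b
    by_cases hab : a = b
    · subst hab
      rw [gram_self, gram_self]
      simp only [MonoidAlgebra.coe_algebraMap, Function.comp_apply,
        MonoidAlgebra.mapRingHom_single, Algebra.algebraMap_self, RingHom.id_apply]
      rfl
    · by_cases h0 : M a b = 0
      · rw [gram_inf _ _ hab h0, gram_inf _ _ hab h0, bf, bf, MonoidAlgebra.mapRingHom_single,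
          map_one]
      · rw [gram_fin _ _ hab h0, gram_fin _ _ hab h0]
        simp only [MonoidAlgebra.coe_algebraMap, Function.comp_apply,
          MonoidAlgebra.mapRingHom_single, Algebra.algebraMap_self, RingHom.id_apply]
        rfl
  rw [e, Matrix.map_apply, MonoidAlgebra.coeff_mapRingHom, h0, map_zero]

end base

section generic
variable {S : Type} [Fintype S] [DecidableEq S] {M : CoxeterMatrix S}
variable {A : Type} [CommRing A] [IsDomain A] [IsNoetherianRing A] (P : Par M A)

/-- parabolic subgroups are closed in a virtual pro-p topology, generic form -/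
theorem sep_gen (hf : ∀ (X : Set S) (g : Art M), g ∉ cl M X →
      ∃ (x s : S) (w : FreeMonoid (S × S)), s ∉ X ∧ (CG P g x s).coeff w ≠ 0)
    (m : Ideal A) (hm : m ≠ ⊤) [hfin : Finite (A ⧸ m)] (p : ℕ) (hpm : (p : A) ∈ m) :
    ∃ N : Subgroup (Art M), N.Normal ∧ N.FiniteIndex ∧ ∀ (X : Set S) (g : Art M), g ∉ cl M X →
      ∃ K : Subgroup (Art M), K.Normal ∧ K.FiniteIndex ∧ K ≤ N ∧
        (∀ h ∈ N, ∃ k : ℕ, h ^ (p ^ k) ∈ K) ∧ g ∉ cl M X ⊔ K := by
  let φ0 : A →+* A ⧸ m := Ideal.Quotient.mk m
  let ψ0 := rw' P φ0 []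
  let N := ψ0.ker
  have hN : ∀ h ∈ N, FilM m 1 (CG P h) := by
    intro h hh x s w
    by_cases hw : w = 1
    · subst hw
      have e1 : ψ0 h = 1 := hh
      have e2 : φ0 ((CG P h x s).coeff 1) = 0 := by
        by_contra hne
        exact rw_ne_one P φ0 [] hne e1
      simpa using Ideal.Quotient.eq_zero_iff_mem.1 e2
    · have : 1 ≤ w.length := by
        rcases Nat.eq_zero_or_pos w.length with h0 | h0
        · exact absurd (FreeMonoid.length_eq_zero.1 h0) hw
        · exact h0
      have e : 1 - w.length = 0 := by omega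
      rw [e, pow_zero, Ideal.one_eq_top]
      trivial
  refine ⟨N, inferInstance, Subgroup.finiteIndex_ker _, ?_⟩
  intro X g hg
  obtain ⟨x, s, w, hs, hne⟩ := hf X g hg
  obtain ⟨j, hj⟩ := krull hm hne
  have hfj : Finite (A ⧸ m ^ j) := Ideal.finite_quotient_pow (IsNoetherian.noetherian m) j
  let φ : A →+* A ⧸ m ^ j := Ideal.Quotient.mk (m ^ j)
  let ψ := rw' P φ w.toList
  refine ⟨ψ.ker ⊓ N, inferInstance, ?_, inf_le_right, ?_, ?_⟩
  · have h1 : ψ.ker.FiniteIndex := Subgroup.finiteIndex_ker _
    have h2 : N.FiniteIndex := Subgroup.finiteIndex_ker _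
    exact inferInstance
  · intro h hh
    refine ⟨j + w.length, ?_, ?_⟩
    · have hh' := hN h hh
      have h1 := pow_pe_fil P hpm hh' (j + w.length)
      change ψ (h ^ p ^ (j + w.length)) = 1
      apply rw_eq_one
      intro x s m' hm'
      change Ideal.Quotient.mk (m ^ j) _ = 0
      rw [Ideal.Quotient.eq_zero_iff_mem]
      refine Ideal.pow_le_pow_right ?_ (h1 x s m')
      have : w.toList.length = w.length := rfl
      omega
    · exact N.pow_mem hh _
  · intro hmem
    have hle : cl M X ⊔ (ψ.ker ⊓ N) ≤ cl M X ⊔ ψ.ker := sup_le_sup_left inf_le_left _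
    have hmem2 := hle hmem
    rw [Subgroup.mem_sup_of_normal_right] at hmem2
    obtain ⟨y, hy, z, hz, e⟩ := hmem2
    have e1 : ψ g = ψ y := by
      have : ψ z = 1 := hz
      rw [← e, map_mul, this, mul_one]
    have e2 : Cw P φ w.toList g = Cw P φ w.toList y := by
      have := congrArg (fun u : Fg P φ w.toList =>
        (u : Circ (gram (P.map φ) (fun s t => Bm (A ⧸ m ^ j) w.toList (s, t)))).val) e1
      exact this
    have e3 : Cw P φ w.toList y x s = 0 := supp_Cm _ _ hy x s (fun h' => hs h'.2)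
    have e4 : Cw P φ w.toList g x s = fw w.toList φ (CG P g x s) := by
      rw [Cw_eq, Matrix.map_apply]
    rw [e2, e3] at e4
    have e5 := fw_corner w.toList φ (CG P g x s)
    rw [← e4, FreeMonoid.ofList_toList] at e5
    apply hj
    apply Ideal.Quotient.eq_zero_iff_mem.1
    change φ _ = 0
    rw [← e5]; rfl

end generic

section final
variable {S : Type} [Fintype S] [DecidableEq S] (M : CoxeterMatrix S)

/-- standard parabolic subgroups are closed in a virtual pro-p topology -/
theorem sep_main (hR : RankTwo M) (p : ℕ) (hp : p.Prime) :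
    ∃ N : Subgroup (Art M), N.Normal ∧ N.FiniteIndex ∧ ∀ (X : Set S) (g : Art M), g ∉ cl M X →
      ∃ K : Subgroup (Art M), K.Normal ∧ K.FiniteIndex ∧ K ≤ N ∧
        (∀ h ∈ N, ∃ k : ℕ, h ^ (p ^ k) ∈ K) ∧ g ∉ cl M X ⊔ K := by
  obtain ⟨m, hm, hpm⟩ := Ideal.exists_le_maximal (Ideal.span {((p : ℕ) : AA M)})
    (fun h => prime_not_unit M p hp (Ideal.span_singleton_eq_top.1 h))
  have hpm' : ((p : ℕ) : AA M) ∈ m := hpm (Ideal.mem_span_singleton_self _)
  have hfin : Finite (AA M ⧸ m) := residue_finite (AA M) m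
  exact sep_gen (PA M) (fun X g hg => detect_base M hR hg) m hm.ne_top p hpm'

end final

end Pool.Agent.TH107.RF
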