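import Pool.Agent.TH107.RF.NF
import Pool.Agent.TH107.RF.Sep

set_option autoImplicit false

namespace Pool.Agent.TH107.RF

lemma alt_eq_list {H : Type*} [Group H] (k : ℕ) (a b : H) :
    alt k a b = ((List.range k).map (fun i => if Even i then a else b)).prod := by
  induction k with
  | zero => simp
  | succ k ih =>
    rw [alt_succ_last, ih, List.range_succ, List.map_append, List.prod_append]
    simp

lemma rels_eq {n : ℕ} (M : CoxeterMatrix (Fin n)) :
    {r : FreeGroup (Fin n) | ∃ i j : Fin n, M.M i j ≠ 0 ∧
      r = ((List.range (M.M i j)).map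
              (fun k => if Even k then FreeGroup.of i else FreeGroup.of j)).prod *
          (((List.range (M.M i j)).map
              (fun k => if Even k then FreeGroup.of j else FreeGroup.of i)).prod)⁻¹} =
    rels M := by
  unfold rels
  simp only [alt_eq_list]

/-- finite generation and residual finiteness give the Hopf property, for all finitely generated
subgroups -/
theorem hopf_of_res {G : Type} [Group G]
    (hres : ∀ g : G, g ≠ 1 → ∃ (F : Type) (_ : Group F) (_ : Finite F) (ψ : G →* F), ψ g ≠ 1)
    (H : Subgroup G) (hH : H.FG) (f : H →* H) (hf : Function.Surjective f) :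
    Function.Injective f := by
  rw [injective_iff_map_eq_one]
  intro g hg
  by_contra hne
  have hne' : (g : G) ≠ 1 := fun h => hne (Subtype.ext h)
  obtain ⟨F, _, _, ψ, hψ⟩ := hres g hne'
  let ψ' : H →* F := ψ.comp H.subtype
  -- finitely many homomorphisms
  obtain ⟨T, hgen⟩ := hH
  have hmem : ∀ i : T, (i : G) ∈ H := fun i => by
    rw [← hgen]; exact Subgroup.subset_closure i.2
  have hfin : Finite (H →* F) := by
    apply Finite.of_injective (fun (χ : H →* F) (i : T) => χ ⟨i, hmem i⟩)
    intro χ χ' he
    have h1 : ∀ x : G, ∀ hx : x ∈ Subgroup.closure (T : Set G), ∀ hx' : x ∈ H,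
        χ ⟨x, hx'⟩ = χ' ⟨x, hx'⟩ := by
      intro x hx
      induction hx using Subgroup.closure_induction with
      | mem x hx =>
        intro _
        exact congrFun he ⟨x, hx⟩
      | one => intro _; exact (map_one χ).trans (map_one χ').symm
      | mul x y hx hy ihx ihy =>
        intro _
        have hx' : x ∈ H := by rw [← hgen]; exact hx
        have hy' : y ∈ H := by rw [← hgen]; exact hy
        have e : ∀ h, (⟨x * y, h⟩ : H) = ⟨x, hx'⟩ * ⟨y, hy'⟩ := fun _ => rfl
        rw [e, map_mul, map_mul, ihx hx', ihy hy']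
      | inv x hx ihx =>
        intro _
        have hx' : x ∈ H := by rw [← hgen]; exact hx
        have e : ∀ h, (⟨x⁻¹, h⟩ : H) = ⟨x, hx'⟩⁻¹ := fun _ => rfl
        rw [e, map_inv, map_inv, ihx hx']
    ext x
    exact h1 x (by rw [hgen]; exact x.2) x.2
  have hinj : Function.Injective (fun χ : H →* F => χ.comp f) := by
    intro χ χ' h
    ext x
    obtain ⟨y, rfl⟩ := hf x
    exact DFunLike.congr_fun h y
  obtain ⟨χ, hχ⟩ := (Finite.injective_iff_surjective.1 hinj) ψ'
  have h2 : ψ' g = χ (f g) := by rw [← hχ]; rfl
  rw [hg, map_one] at h2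
  exact hψ h2

end Pool.Agent.TH107.RF
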