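import Pool.Agent.TH107.RF.LIcons

set_option autoImplicit false

namespace Pool.Agent.TH107.RF

open Finset

variable {G : Type*} [Group G]

/-- unique products for a set in a coset of a subgroup with unique products and an arbitrary set -/
lemma uniq_left (N : Subgroup G) (hN : UniqueProds N) (g : G) (A B : Finset G)
    (hA : A.Nonempty) (hB : B.Nonempty) (hAN : ∀ a ∈ A, g⁻¹ * a ∈ N) :
    ∃ a ∈ A, ∃ b ∈ B, UniqueMul A B a b := by
  classical
  obtain ⟨a₀, ha₀⟩ := hA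
  obtain ⟨b₀, hb₀⟩ := hB
  let A1 : Finset N := Finset.univ.image (fun a : A => (⟨g⁻¹ * a, hAN a a.2⟩ : N))
  let B0 : Finset G := B.filter (fun b => b * b₀⁻¹ ∈ N)
  have hB0 : ∀ b : B0, (b : G) * b₀⁻¹ ∈ N := fun b => (Finset.mem_filter.1 b.2).2
  let B1 : Finset N := Finset.univ.image (fun b : B0 => (⟨b * b₀⁻¹, hB0 b⟩ : N))
  have hA1 : A1.Nonempty := ⟨_, Finset.mem_image.2 ⟨⟨a₀, ha₀⟩, Finset.mem_univ _, rfl⟩⟩
  have hb00 : b₀ ∈ B0 := Finset.mem_filter.2 ⟨hb₀, by rw [mul_inv_cancel]; exact N.one_mem⟩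
  have hB1 : B1.Nonempty := ⟨_, Finset.mem_image.2 ⟨⟨b₀, hb00⟩, Finset.mem_univ _, rfl⟩⟩
  obtain ⟨u, hu, v, hv, huv⟩ := hN.uniqueMul_of_nonempty hA1 hB1
  obtain ⟨⟨a, ha⟩, -, rfl⟩ := Finset.mem_image.1 hu
  obtain ⟨⟨b, hb⟩, -, rfl⟩ := Finset.mem_image.1 hv
  refine ⟨a, ha, b, (Finset.mem_filter.1 hb).1, ?_⟩
  intro a' b' ha' hb' hab
  have hbN := (Finset.mem_filter.1 hb).2
  have h1 : b' * b₀⁻¹ ∈ N := by
    have e : b' * b₀⁻¹ = (g⁻¹ * a')⁻¹ * (g⁻¹ * a) * (b * b₀⁻¹) := by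
      have : b' = a'⁻¹ * (a * b) := by rw [← hab]; group
      rw [this]; group
    rw [e]
    exact N.mul_mem (N.mul_mem (N.inv_mem (hAN a' ha')) (hAN a ha)) hbN
  have h2 : b' ∈ B0 := Finset.mem_filter.2 ⟨hb', h1⟩
  have h3 := @huv ⟨g⁻¹ * a', hAN a' ha'⟩ ⟨b' * b₀⁻¹, h1⟩
    (Finset.mem_image.2 ⟨⟨a', ha'⟩, Finset.mem_univ _, rfl⟩)
    (Finset.mem_image.2 ⟨⟨b', h2⟩, Finset.mem_univ _, rfl⟩)
    (Subtype.ext (by
      change g⁻¹ * a' * (b' * b₀⁻¹) = g⁻¹ * a * (b * b₀⁻¹)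
      calc g⁻¹ * a' * (b' * b₀⁻¹) = g⁻¹ * (a' * b') * b₀⁻¹ := by group
        _ = g⁻¹ * (a * b) * b₀⁻¹ := by rw [hab]
        _ = _ := by group))
  have h4 : g⁻¹ * a' = g⁻¹ * a := congrArg Subtype.val h3.1
  have h5 : b' * b₀⁻¹ = b * b₀⁻¹ := congrArg Subtype.val h3.2
  exact ⟨mul_left_cancel h4, mul_right_cancel h5⟩

lemma uniq_right (N : Subgroup G) (hN : UniqueProds N) (g : G) (A B : Finset G)
    (hA : A.Nonempty) (hB : B.Nonempty) (hBN : ∀ b ∈ B, b * g⁻¹ ∈ N) :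
    ∃ a ∈ A, ∃ b ∈ B, UniqueMul A B a b := by
  classical
  have e : ∀ (X : Finset G) (x : G), x ∈ X.image (fun x => x⁻¹) ↔ x⁻¹ ∈ X := by
    intro X x
    rw [Finset.mem_image]
    constructor
    · rintro ⟨y, hy, rfl⟩; rwa [inv_inv]
    · intro h; exact ⟨x⁻¹, h, inv_inv x⟩
  obtain ⟨b, hb, a, ha, hab⟩ := uniq_left N hN g⁻¹ (B.image (fun x => x⁻¹)) (A.image (fun x => x⁻¹))
    (hB.image _) (hA.image _) (by
      intro b hb
      rw [e] at hb
      have h1 := N.inv_mem (hBN _ hb)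
      have h2 : g⁻¹⁻¹ * b = (b⁻¹ * g⁻¹)⁻¹ := by group
      rw [h2]; exact h1)
  rw [e] at hb ha
  refine ⟨a⁻¹, ha, b⁻¹, hb, ?_⟩
  intro a' b' ha' hb' h
  have h1 := @hab b'⁻¹ a'⁻¹ ((e _ _).2 (by rwa [inv_inv])) ((e _ _).2 (by rwa [inv_inv])) (by
    rw [← _root_.mul_inv_rev, h, _root_.mul_inv_rev, inv_inv, inv_inv])
  refine ⟨?_, ?_⟩
  · rw [← h1.2, inv_inv]
  · rw [← h1.1, inv_inv]

/-- elements supported on a coset of a normal subgroup with unique products are not zero divisors -/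
theorem coset_nzd (N : Subgroup G) [hNn : N.Normal] (hN : UniqueProds N) {K : Type*} [Ring K]
    [NoZeroDivisors K] (g : G) (x y : MonoidAlgebra K G)
    (hx : ∀ h ∈ x.coeff.support, g⁻¹ * h ∈ N) (hx0 : x ≠ 0) (hy0 : y ≠ 0) :
    x * y ≠ 0 ∧ y * x ≠ 0 := by
  have hAne : ∀ z : MonoidAlgebra K G, z ≠ 0 → z.coeff.support.Nonempty := by
    intro z hz
    rw [Finsupp.support_nonempty_iff]
    intro h0; apply hz; apply MonoidAlgebra.ext; exact h0
  have key : ∀ z w : MonoidAlgebra K G, ∀ a ∈ z.coeff.support, ∀ b ∈ w.coeff.support,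
      UniqueMul z.coeff.support w.coeff.support a b → z * w ≠ 0 := by
    intro z w a ha b hb hu h0
    have h3 : (z * w).coeff (a * b) = z.coeff a * w.coeff b :=
      MonoidAlgebra.coeff_mul_mul_of_uniqueMul hu
    rw [h0] at h3
    have h4 : z.coeff a * w.coeff b = 0 := h3.symm
    rcases mul_eq_zero.1 h4 with h5 | h5
    · exact Finsupp.mem_support_iff.1 ha h5
    · exact Finsupp.mem_support_iff.1 hb h5
  constructor
  · obtain ⟨a, ha, b, hb, hu⟩ := uniq_left N hN g _ _ (hAne x hx0) (hAne y hy0) hx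
    exact key x y a ha b hb hu
  · obtain ⟨a, ha, b, hb, hu⟩ := uniq_right N hN g _ _ (hAne y hy0) (hAne x hx0) (by
      intro h hh
      have h1 := hx h hh
      have h2 : h * g⁻¹ = g * (g⁻¹ * h) * g⁻¹ := by group
      rw [h2]
      exact hNn.conj_mem _ h1 g)
    exact key y x a ha b hb hu

/-- local indicability of the pure Artin group, in subgroup form -/
lemma li_ker {S : Type*} [Fintype S] [DecidableEq S] {M : CoxeterMatrix S} (hR : RankTwo M) :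
    LI (toCox M).ker := by
  intro H hH hne
  have h1 : (H.map (toCox M).ker.subtype).FG := by
    classical
    obtain ⟨S, hS⟩ := hH
    exact ⟨S.image (toCox M).ker.subtype, by
      rw [Finset.coe_image, ← MonoidHom.map_closure, hS]⟩
  have h2 : H.map (toCox M).ker.subtype ≠ ⊥ := by
    intro h0
    apply hne
    rw [Subgroup.map_eq_bot_iff, Subgroup.ker_subtype] at h0
    exact le_bot_iff.1 h0
  have h3 : H.map (toCox M).ker.subtype ≤ (toCox M).ker := by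
    rintro _ ⟨x, -, rfl⟩
    exact x.2
  obtain ⟨φ, k, hk⟩ := li_pure hR h1 h2 h3
  let e := H.equivMapOfInjective (toCox M).ker.subtype (toCox M).ker.subtype_injective
  refine ⟨φ.comp e.toMonoidHom, e.symm k, ?_⟩
  have : (φ.comp e.toMonoidHom) (e.symm k) = φ k := by
    change φ (e (e.symm k)) = φ k
    rw [MulEquiv.apply_symm_apply]
  rw [this]; exact hk

end Pool.Agent.TH107.RF
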