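import Pool.Agent.TH107.RF.Multi

set_option autoImplicit false

namespace Pool.Agent.TH107.RF

open Finset

/-- locally indicable groups have unique products (the proof follows the starting files) -/
theorem uniqueProds_of_LI {G : Type*} [Group G] (hG : LI G) : UniqueProds G := by
  classical
  have key : ∀ n : ℕ, ∀ A B : Finset G, A.Nonempty → B.Nonempty → #A + #B ≤ n →
      ∃ a ∈ A, ∃ b ∈ B, UniqueMul A B a b := by
    intro n
    induction n with
    | zero =>
      intro A B hA hB h
      have := hA.card_pos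
      omega
    | succ n ih =>
      intro A B hA hB h
      obtain ⟨a₀, ha₀⟩ := hA
      obtain ⟨b₀, hb₀⟩ := hB
      let S : Set G := {x | ∃ a ∈ A, x = a₀⁻¹ * a} ∪ {x | ∃ b ∈ B, x = b * b₀⁻¹}
      let H : Subgroup G := Subgroup.closure S
      by_cases hH : H = ⊥
      · -- all trivial
        have hS : ∀ x ∈ S, x = 1 := by
          intro x hx
          have : x ∈ H := Subgroup.subset_closure hx
          rw [hH] at this
          exact Subgroup.mem_bot.mp this
        refine ⟨a₀, ha₀, b₀, hb₀, ?_⟩
        intro a b ha hb _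
        have h1 := hS (a₀⁻¹ * a) (Or.inl ⟨a, ha, rfl⟩)
        have h2 := hS (b * b₀⁻¹) (Or.inr ⟨b, hb, rfl⟩)
        exact ⟨(inv_mul_eq_one.mp h1).symm, mul_inv_eq_one.mp h2⟩
      · have hSfin : S.Finite := by
          have h1 : S = (fun a => a₀⁻¹ * a) '' (A : Set G) ∪ (fun b => b * b₀⁻¹) '' (B : Set G) := by
            ext x
            constructor
            · rintro (⟨a, ha, rfl⟩ | ⟨b, hb, rfl⟩)
              · exact Or.inl ⟨a, ha, rfl⟩
              · exact Or.inr ⟨b, hb, rfl⟩
            · rintro (⟨a, ha, rfl⟩ | ⟨b, hb, rfl⟩)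
              · exact Or.inl ⟨a, ha, rfl⟩
              · exact Or.inr ⟨b, hb, rfl⟩
          rw [h1]
          exact (A.finite_toSet.image _).union (B.finite_toSet.image _)
        have hFG : H.FG := (Subgroup.fg_iff H).2 ⟨S, rfl, hSfin⟩
        obtain ⟨f, k₀, hk₀⟩ := hG H hFG hH
        have hf : f ≠ 1 := fun h => hk₀ (by rw [h]; rfl)
        have hSne : ∃ x, ∃ hx : x ∈ S, f ⟨x, Subgroup.subset_closure hx⟩ ≠ 1 := by
          by_contra hcon
          push Not at hcon
          apply hf
          ext ⟨x, hx⟩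
          have : ∀ x (hx : x ∈ H), f ⟨x, hx⟩ = 1 := by
            intro x hx
            induction hx using Subgroup.closure_induction with
            | mem y hy => exact hcon y hy
            | one => exact f.map_one
            | mul y z hy hz h1 h2 =>
              have : (⟨y * z, H.mul_mem hy hz⟩ : H) = ⟨y, hy⟩ * ⟨z, hz⟩ := rfl
              rw [this, map_mul, h1, h2, one_mul]
            | inv y hy h1 =>
              have : (⟨y⁻¹, H.inv_mem hy⟩ : H) = ⟨y, hy⟩⁻¹ := rfl
              rw [this, map_inv, h1, inv_one]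
          rw [this x hx]; rfl
        -- level functions
        let g : G → ℤ := fun x => if hx : x ∈ H then (f ⟨x, hx⟩).toAdd else 0
        have gmul : ∀ x ∈ H, ∀ y ∈ H, g (x * y) = g x + g y := by
          intro x hx y hy
          simp only [g, dif_pos hx, dif_pos hy, dif_pos (H.mul_mem hx hy)]
          rw [← toAdd_mul, ← map_mul]; rfl
        have ginv : ∀ x ∈ H, g x⁻¹ = - g x := by
          intro x hx
          simp only [g, dif_pos hx, dif_pos (H.inv_mem hx)]
          rw [← toAdd_inv, ← map_inv]; rfl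
        have hAH : ∀ a ∈ A, a₀⁻¹ * a ∈ H := fun a ha => Subgroup.subset_closure (Or.inl ⟨a, ha, rfl⟩)
        have hBH : ∀ b ∈ B, b * b₀⁻¹ ∈ H := fun b hb => Subgroup.subset_closure (Or.inr ⟨b, hb, rfl⟩)
        obtain ⟨aM, haM, hamax⟩ := A.exists_max_image (fun a => g (a₀⁻¹ * a)) ⟨a₀, ha₀⟩
        obtain ⟨bM, hbM, hbmax⟩ := B.exists_max_image (fun b => g (b * b₀⁻¹)) ⟨b₀, hb₀⟩
        let A' := A.filter (fun a => g (a₀⁻¹ * a) = g (a₀⁻¹ * aM))
        let B' := B.filter (fun b => g (b * b₀⁻¹) = g (bM * b₀⁻¹))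
        have hcard : #A' + #B' ≤ n := by
          have h1 : #A' ≤ #A := card_filter_le _ _
          have h2 : #B' ≤ #B := card_filter_le _ _
          by_contra hcon
          have h3 : #A' = #A := by omega
          have h4 : #B' = #B := by omega
          have h5 : A' = A := Finset.eq_of_subset_of_card_le (filter_subset _ _) (by omega)
          have h6 : B' = B := Finset.eq_of_subset_of_card_le (filter_subset _ _) (by omega)
          have h7 : ∀ a ∈ A, g (a₀⁻¹ * a) = 0 := by
            intro a ha
            have e1 : g (a₀⁻¹ * a) = g (a₀⁻¹ * aM) := by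
              rw [← h5] at ha; exact (mem_filter.mp ha).2
            have e2 : g (a₀⁻¹ * a₀) = g (a₀⁻¹ * aM) := by
              rw [← h5] at ha₀; exact (mem_filter.mp ha₀).2
            rw [e1, ← e2, inv_mul_cancel]
            have := gmul 1 H.one_mem 1 H.one_mem
            rw [mul_one] at this
            omega
          have h8 : ∀ b ∈ B, g (b * b₀⁻¹) = 0 := by
            intro b hb
            have e1 : g (b * b₀⁻¹) = g (bM * b₀⁻¹) := by
              rw [← h6] at hb; exact (mem_filter.mp hb).2
            have e2 : g (b₀ * b₀⁻¹) = g (bM * b₀⁻¹) := by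
              rw [← h6] at hb₀; exact (mem_filter.mp hb₀).2
            rw [e1, ← e2, mul_inv_cancel]
            have := gmul 1 H.one_mem 1 H.one_mem
            rw [mul_one] at this
            omega
          obtain ⟨x, hx, hfx⟩ := hSne
          have h9 : g x = 0 := by
            rcases hx with ⟨a, ha, rfl⟩ | ⟨b, hb, rfl⟩
            · exact h7 a ha
            · exact h8 b hb
          apply hfx
          have hxH : x ∈ H := Subgroup.subset_closure hx
          simp only [g, dif_pos hxH] at h9
          exact toAdd_eq_zero.mp h9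
        obtain ⟨a, ha, b, hb, hab⟩ := ih A' B' ⟨aM, mem_filter.mpr ⟨haM, rfl⟩⟩
          ⟨bM, mem_filter.mpr ⟨hbM, rfl⟩⟩ hcard
        obtain ⟨haA, haL⟩ := mem_filter.mp ha
        obtain ⟨hbB, hbL⟩ := mem_filter.mp hb
        refine ⟨a, haA, b, hbB, ?_⟩
        intro x y hx hy hxy
        have e1 : g (a₀⁻¹ * x) + g (y * b₀⁻¹) = g (a₀⁻¹ * a) + g (b * b₀⁻¹) := by
          rw [← gmul _ (hAH x hx) _ (hBH y hy), ← gmul _ (hAH a haA) _ (hBH b hbB)]
          congr 1
          calc a₀⁻¹ * x * (y * b₀⁻¹) = a₀⁻¹ * (x * y) * b₀⁻¹ := by group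
            _ = a₀⁻¹ * (a * b) * b₀⁻¹ := by rw [hxy]
            _ = _ := by group
        have e2 := hamax x hx
        have e3 := hbmax y hy
        exact hab (mem_filter.mpr ⟨hx, by omega⟩) (mem_filter.mpr ⟨hy, by omega⟩) hxy
  exact ⟨fun {A B} hA hB => key _ A B hA hB le_rfl⟩

/-- group algebras of locally indicable groups have no zero divisors -/
theorem nzd_of_LI {G : Type*} [Group G] (hG : LI G) (K : Type*) [Ring K] [NoZeroDivisors K]
    (x y : MonoidAlgebra K G) (h : x * y = 0) : x = 0 ∨ y = 0 := by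
  have : UniqueProds G := uniqueProds_of_LI hG
  exact mul_eq_zero.1 h

/-- units of group algebras of locally indicable groups are trivial -/
theorem units_of_LI {G : Type*} [Group G] (hG : LI G) (K : Type*) [Ring K] [NoZeroDivisors K]
    [Nontrivial K] (x y : MonoidAlgebra K G) (h : x * y = 1) :
    ∃ (g : G) (c : K), x = MonoidAlgebra.single g c := by
  classical
  have hU : UniqueProds G := uniqueProds_of_LI hG
  have hT : TwoUniqueProds G := UniqueProds.toTwoUniqueProds_of_group
  have hx0 : x ≠ 0 := by rintro rfl; rw [zero_mul] at h; exact zero_ne_one h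
  have hy0 : y ≠ 0 := by rintro rfl; rw [mul_zero] at h; exact zero_ne_one h
  set A := x.coeff.support with hA
  set B := y.coeff.support with hB
  have hAne : A.Nonempty := by
    rw [hA, Finsupp.support_nonempty_iff]
    intro h0; apply hx0; apply MonoidAlgebra.ext; exact h0
  have hBne : B.Nonempty := by
    rw [hB, Finsupp.support_nonempty_iff]
    intro h0; apply hy0; apply MonoidAlgebra.ext; exact h0
  have hcoeff : ∀ p : G × G, p.1 ∈ A → p.2 ∈ B → UniqueMul A B p.1 p.2 → p.1 * p.2 = 1 := by
    intro p h1 h2 hu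
    have h3 : (x * y).coeff (p.1 * p.2) = x.coeff p.1 * y.coeff p.2 :=
      MonoidAlgebra.coeff_mul_mul_of_uniqueMul hu
    rw [h] at h3
    by_contra hne
    have h4 : (1 : MonoidAlgebra K G).coeff (p.1 * p.2) = 0 := by
      rw [MonoidAlgebra.one_def, MonoidAlgebra.coeff_single, Finsupp.single_apply,
        if_neg (fun h => hne h.symm)]
    rw [h4] at h3
    rcases mul_eq_zero.1 h3.symm with h5 | h5
    · exact Finsupp.mem_support_iff.1 h1 h5
    · exact Finsupp.mem_support_iff.1 h2 h5
  have hcard : #A * #B ≤ 1 := by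
    by_contra hcon
    push Not at hcon
    obtain ⟨p, hp, q, hq, hne, hpu, hqu⟩ := TwoUniqueProds.uniqueMul_of_one_lt_card hcon
    rw [Finset.mem_product] at hp hq
    have e1 := hcoeff p hp.1 hp.2 hpu
    have e2 := hcoeff q hq.1 hq.2 hqu
    have e3 := hpu hq.1 hq.2 (e2.trans e1.symm)
    exact hne (Prod.ext e3.1.symm e3.2.symm)
  have hA1 : #A = 1 := by
    have h1 := hAne.card_pos
    have h2 := hBne.card_pos
    nlinarith
  obtain ⟨g, hg⟩ := Finset.card_eq_one.1 hA1
  refine ⟨g, x.coeff g, ?_⟩
  apply MonoidAlgebra.ext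
  rw [MonoidAlgebra.coeff_single]
  ext a
  rw [Finsupp.single_apply]
  split_ifs with h1
  · rw [h1]
  · by_contra h2
    have h3 : a ∈ A := Finsupp.mem_support_iff.2 h2
    rw [hg, Finset.mem_singleton] at h3
    exact h1 h3.symm

section
variable {S : Type*} [Fintype S] [DecidableEq S] {M : CoxeterMatrix S}

/-- pure Artin groups are locally indicable -/
theorem li_pure (hR : RankTwo M) {H : Subgroup (Art M)} (hH : H.FG) (hne : H ≠ ⊥)
    (hle : H ≤ (toCox M).ker) : ∃ φ : H →* Multiplicative ℤ, ∃ k, φ k ≠ 1 :=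
  li_of_filt (PR M) (bf S _) (filP S (RingHom.ker ev1) unit_nat 0)
    (filP_sep _ (fun _ h => faithful0 hR h) ker_ev1_ne 0) hH hne (hle.trans pure_le)

end

end Pool.Agent.TH107.RF
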