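import Pool.Agent.TH107.RF.Pair

set_option autoImplicit false

namespace Pool.Agent.TH107.RF

open Matrix LaurentPolynomial

variable {S : Type*} [Fintype S] [DecidableEq S]

/-- all entries are monomials of degree `d` -/
def Homog (d : ℤ) (A : Matrix Bool Bool ℝ[T;T⁻¹]) : Prop := ∀ x y, ∃ c : ℝ, A x y = C c * T d

lemma Homog.mul {d e : ℤ} {A B : Matrix Bool Bool ℝ[T;T⁻¹]} (hA : Homog d A) (hB : Homog e B) :
    Homog (d + e) (A * B) := by
  intro x y
  rw [Matrix.mul_apply, Fintype.sum_bool]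
  obtain ⟨a1, h1⟩ := hA x true
  obtain ⟨a2, h2⟩ := hA x false
  obtain ⟨b1, k1⟩ := hB true y
  obtain ⟨b2, k2⟩ := hB false y
  refine ⟨a1 * b1 + a2 * b2, ?_⟩
  rw [h1, h2, k1, k2, T_add, map_add, map_mul, map_mul]
  ring

lemma homog_one : Homog 0 (1 : Matrix Bool Bool ℝ[T;T⁻¹]) := by
  intro x y
  rw [Matrix.one_apply]
  split_ifs
  · exact ⟨1, by simp⟩
  · exact ⟨0, by simp⟩

lemma eq_not_of_ne' {x z : Bool} (h : x ≠ z) : z = !x := by
  cases x <;> cases z <;> simp_all

lemma run_not (x : Bool) (l : List Bool) : run (x :: (!x) :: l) = run ((!x) :: l) + 1 := by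
  cases x <;> simp [run]

section pair
variable {M : CoxeterMatrix S} {s t : S} (hst : s ≠ t) (hM : M s t ≠ 0)
include hst hM

omit [Fintype S] in
lemma two_le : 2 ≤ M s t := by
  have := M.off_diagonal s t hst
  omega

/-- the Garside element of the pair -/
def dl (M : CoxeterMatrix S) (s t : S) : Art M := alt (M s t) (sg M s) (sg M t)

omit hst hM in
lemma dl_mem : dl M s t ∈ cl M ({s, t} : Set S) := alt_mem (M := M) (s := s) (t := t) (M s t) true

lemma V2_dl : V2 s t (dl M s t) true (if Even (M s t) then true else false) = - T (M s t : ℕ) ∧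
    V2 s t (dl M s t) false (if Even (M s t) then true else false) = 0 ∧
    V2 s t (dl M s t) true (if Even (M s t) then false else true) = 0 ∧
    V2 s t (dl M s t) false (if Even (M s t) then false else true) = - T (M s t : ℕ) := by
  have h2 := two_le hst hM
  obtain ⟨i1, i2, i3, i4⟩ := V2_alt hst hM (M s t) (by omega) true
  have z : chb (lamR M s t) (M s t) = 0 := chb_cos_zero h2
  have o : chb (lamR M s t) (M s t - 1) = 1 := chb_cos_pred h2
  have n : chb (lamR M s t) (M s t + 1) = -1 := by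
    obtain ⟨j, hj⟩ : ∃ j, M s t = j + 1 := ⟨M s t - 1, by omega⟩
    have : chb (lamR M s t) (M s t + 1) =
        lamR M s t * chb (lamR M s t) (M s t) - chb (lamR M s t) (M s t - 1) := by
      rw [hj]; rfl
    rw [this, z, o]; ring
  rw [n] at i1
  rw [z] at i2 i3
  rw [o] at i4
  refine ⟨?_, ?_, ?_, ?_⟩
  · exact i1.trans (by simp)
  · exact i2.trans (by simp)
  · exact i3.trans (by simp)
  · exact i4.trans (by simp)

lemma homog_dl : Homog (M s t : ℕ) (V2 s t (dl M s t)) := by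
  obtain ⟨i1, i2, i3, i4⟩ := V2_dl hst hM
  have e1 : - (T (M s t : ℕ) : ℝ[T;T⁻¹]) = C (-1) * T (M s t : ℕ) := by simp
  have e0 : (0 : ℝ[T;T⁻¹]) = C 0 * T (M s t : ℕ) := by simp
  intro x y
  by_cases h : Even (M s t)
  · simp only [if_pos h] at i1 i2 i3 i4
    cases x <;> cases y
    · exact ⟨-1, i4.trans e1⟩
    · exact ⟨0, i2.trans e0⟩
    · exact ⟨0, i3.trans e0⟩
    · exact ⟨-1, i1.trans e1⟩
  · simp only [if_neg h] at i1 i2 i3 i4
    cases x <;> cases y
    · exact ⟨0, i2.trans e0⟩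
    · exact ⟨-1, i4.trans e1⟩
    · exact ⟨-1, i1.trans e1⟩
    · exact ⟨0, i3.trans e0⟩

lemma dl_sq : V2 s t (dl M s t * dl M s t) = (T (2 * (M s t : ℕ)) : ℝ[T;T⁻¹]) • 1 := by
  obtain ⟨i1, i2, i3, i4⟩ := V2_dl hst hM
  rw [V2_mul hst _ dl_mem]
  have e : (T (2 * (M s t : ℕ)) : ℝ[T;T⁻¹]) = T (M s t : ℕ) * T (M s t : ℕ) := by
    rw [← T_add]; congr 1; ring
  ext1 x y
  rw [Matrix.mul_apply, Fintype.sum_bool, Matrix.smul_apply, e, smul_eq_mul]
  by_cases h : Even (M s t)
  · simp only [if_pos h] at i1 i2 i3 i4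
    cases x <;> cases y <;> simp [i1, i2, i3, i4]
  · simp only [if_neg h] at i1 i2 i3 i4
    cases x <;> cases y <;> simp [i1, i2, i3, i4]

lemma V2_dl_inv : V2 s t (dl M s t)⁻¹ =
    (T (-(2 * (M s t : ℕ))) : ℝ[T;T⁻¹]) • V2 s t (dl M s t) := by
  have h1 : V2 s t (dl M s t)⁻¹ * V2 s t (dl M s t) = 1 := by
    rw [← V2_mul hst _ dl_mem, inv_mul_cancel, V2_one hst]
  have h2 := dl_sq hst hM
  rw [V2_mul hst _ dl_mem] at h2
  have h3 : V2 s t (dl M s t) * ((T (-(2 * (M s t : ℕ))) : ℝ[T;T⁻¹]) • V2 s t (dl M s t)) = 1 := by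
    rw [Matrix.mul_smul, h2, smul_smul, ← T_add]
    simp
  calc V2 s t (dl M s t)⁻¹ = V2 s t (dl M s t)⁻¹ * 1 := by rw [mul_one]
    _ = V2 s t (dl M s t)⁻¹ * (V2 s t (dl M s t) *
        ((T (-(2 * (M s t : ℕ))) : ℝ[T;T⁻¹]) • V2 s t (dl M s t))) := by rw [h3]
    _ = _ := by rw [← mul_assoc, h1, one_mul]

lemma homog_dl_inv : Homog (-(M s t : ℕ)) (V2 s t (dl M s t)⁻¹) := by
  rw [V2_dl_inv hst hM]
  intro x y
  obtain ⟨c, hc⟩ := homog_dl hst hM x y
  refine ⟨c, ?_⟩
  rw [Matrix.smul_apply, hc, smul_eq_mul, mul_comm, mul_assoc, ← T_add]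
  congr 2; ring

lemma homog_zpow (j : ℤ) : Homog (j * (M s t : ℕ)) (V2 s t ((dl M s t) ^ j)) := by
  induction j using Int.induction_on with
  | zero => rw [zpow_zero, V2_one hst, zero_mul]; exact homog_one
  | succ i ih =>
    rw [_root_.zpow_add_one, V2_mul hst _ dl_mem, add_mul, one_mul]
    exact ih.mul (homog_dl hst hM)
  | pred i ih =>
    rw [_root_.zpow_sub_one, V2_mul hst _ ((cl M _).inv_mem dl_mem), sub_mul, one_mul, sub_eq_add_neg]
    exact ih.mul (homog_dl_inv hst hM)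

/-- extreme degree analysis of words without long alternating factors -/
lemma extreme (l : List Bool) : ∀ x : Bool, DF (M s t) (x :: l) →
    ∃ (y : Bool) (N n : ℤ) (κ κ' : ℝ), κ ≠ 0 ∧ κ' ≠ 0 ∧ n < N ∧
      (∀ k, N < k → (V2 s t (wp (sg M s) (sg M t) (x :: l)) x y).coeff k = 0) ∧
      (V2 s t (wp (sg M s) (sg M t) (x :: l)) x y).coeff N =
        κ * chb (lamR M s t) (run (x :: l)) ∧
      (∀ k, N - 1 < k → (V2 s t (wp (sg M s) (sg M t) (x :: l)) (!x) y).coeff k = 0) ∧
      (V2 s t (wp (sg M s) (sg M t) (x :: l)) (!x) y).coeff (N - 1) =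
        κ * chb (lamR M s t) (run (x :: l) - 1) ∧
      (∀ k, k < n → (V2 s t (wp (sg M s) (sg M t) (x :: l)) (!x) (!y)).coeff k = 0) ∧
      (V2 s t (wp (sg M s) (sg M t) (x :: l)) (!x) (!y)).coeff n =
        κ' * chb (lamR M s t) (run (x :: l)) ∧
      (∀ k, k < n + 1 → (V2 s t (wp (sg M s) (sg M t) (x :: l)) x (!y)).coeff k = 0) ∧
      (V2 s t (wp (sg M s) (sg M t) (x :: l)) x (!y)).coeff (n + 1) =
        κ' * chb (lamR M s t) (run (x :: l) + 1) := by
  have h2 := two_le hst hM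
  have c0 : chb (lamR M s t) 0 = 0 := rfl
  have c1 : chb (lamR M s t) 1 = 1 := rfl
  have c2 : chb (lamR M s t) 2 = lamR M s t := by
    change lamR M s t * 1 - 0 = _; ring
  induction l with
  | nil =>
    intro x _
    obtain ⟨h1, h2, h3, h4⟩ := V2_letter hst hM x
    have hw : wp (sg M s) (sg M t) [x] = sg M (ix s t x) := by
      rw [wp_cons, wp_nil, mul_one, el_sg]
    rw [hw]
    have hr : run [x] = 1 := rfl
    rw [hr]
    refine ⟨x, 2, 0, -1, 1, by norm_num, by norm_num, by norm_num, ?_, ?_, ?_, ?_, ?_, ?_, ?_, ?_⟩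
    · intro k hk
      rw [h1, AddMonoidAlgebra.coeff_neg, Finsupp.neg_apply, T_apply, if_neg (by omega), neg_zero]
    · rw [h1, AddMonoidAlgebra.coeff_neg, Finsupp.neg_apply, T_apply, if_pos rfl, c1]; norm_num
    · intro k _
      rw [h3]; simp
    · rw [h3]; simp [c0]
    · intro k hk
      rw [h4, ← T_zero, T_apply, if_neg (by omega)]
    · rw [h4, ← T_zero, T_apply, if_pos rfl, c1]; norm_num
    · intro k hk
      rw [h2, coeff_T_mul, C_apply, if_neg (by omega)]
    · rw [h2, coeff_T_mul, C_apply, if_pos (by norm_num), c2]; norm_num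
  | cons z l ih =>
    intro x hx
    obtain ⟨hrun, hx'⟩ := hx
    obtain ⟨y, N, n, κ, κ', hκ, hκ', hnN, a1, a2, a3, a4, b1, b2, b3, b4⟩ := ih z hx'
    set g := wp (sg M s) (sg M t) (z :: l) with hg
    have hgm : g ∈ cl M ({s, t} : Set S) := wp_mem _
    have hw : wp (sg M s) (sg M t) (x :: z :: l) = sg M (ix s t x) * g := by
      rw [wp_cons, el_sg]
    rw [hw]
    have hrz : run (z :: l) < M s t := hx'.1
    have hrz1 := run_pos z l
    have hp : chb (lamR M s t) (run (z :: l)) ≠ 0 := (chb_cos_pos h2 hrz1 hrz).ne'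
    have F1 : ∀ y' k, (V2 s t (sg M (ix s t x) * g) x y').coeff k =
        - (V2 s t g x y').coeff (k - 2) + lamR M s t * (V2 s t g (!x) y').coeff (k - 1) := by
      intro y' k
      rw [(V2_letter_mul hst hM x hgm y').1, AddMonoidAlgebra.coeff_add, Finsupp.add_apply,
        AddMonoidAlgebra.coeff_neg, Finsupp.neg_apply, coeff_T_mul, coeff_T_mul, coeff_C_mul]
    have F2 : ∀ y' k, (V2 s t (sg M (ix s t x) * g) (!x) y').coeff k =
        (V2 s t g (!x) y').coeff k := by
      intro y' k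
      rw [(V2_letter_mul hst hM x hgm y').2]
    by_cases hxz : x = z
    · subst hxz
      have hr : run (x :: x :: l) = 1 := by simp [run]
      rw [hr]
      refine ⟨y, N + 2, n, -(κ * chb (lamR M s t) (run (x :: l))),
        κ' * chb (lamR M s t) (run (x :: l)), neg_ne_zero.2 (mul_ne_zero hκ hp),
        mul_ne_zero hκ' hp, by omega, ?_, ?_, ?_, ?_, ?_, ?_, ?_, ?_⟩
      · intro k hk
        rw [F1, a1 _ (by omega), a3 _ (by omega)]; ring
      · rw [F1, a3 _ (by omega), show N + 2 - 2 = N by ring, a2, c1]; ring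
      · intro k hk
        rw [F2, a3 _ (by omega)]
      · rw [F2, a3 _ (by omega)]; simp [c0]
      · intro k hk
        rw [F2, b1 _ hk]
      · rw [F2, b2, c1]; ring
      · intro k hk
        rw [F1, b3 _ (by omega), b1 _ (by omega)]; ring
      · rw [F1, b3 _ (by omega), show n + 1 - 1 = n by ring, b2]
        change _ = _ * chb (lamR M s t) 2
        rw [c2]; ring
    · have hz : z = !x := eq_not_of_ne' hxz
      subst hz
      have hr : run (x :: (!x) :: l) = run ((!x) :: l) + 1 := by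
        exact run_not x l
      rw [hr] at hrun ⊢
      rw [Bool.not_not] at a3 a4 b1 b2
      have e1 : chb (lamR M s t) (run ((!x) :: l) + 1) =
          lamR M s t * chb (lamR M s t) (run ((!x) :: l)) -
            chb (lamR M s t) (run ((!x) :: l) - 1) := by
        obtain ⟨j, hj⟩ : ∃ j, run ((!x) :: l) = j + 1 := ⟨run ((!x) :: l) - 1, by omega⟩
        rw [hj]; rfl
      have e2 : chb (lamR M s t) (run ((!x) :: l) + 1 + 1) =
          lamR M s t * chb (lamR M s t) (run ((!x) :: l) + 1) -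
            chb (lamR M s t) (run ((!x) :: l)) := rfl
      refine ⟨y, N + 1, n + 1, κ, κ', hκ, hκ', by omega, ?_, ?_, ?_, ?_, ?_, ?_, ?_, ?_⟩
      · intro k hk
        rw [F1, a3 _ (by omega), a1 _ (by omega)]; ring
      · rw [F1, show N + 1 - 2 = N - 1 by ring, show N + 1 - 1 = N by ring, a4, a2, e1]; ring
      · intro k hk
        rw [F2, a1 _ (by omega)]
      · rw [F2, show N + 1 - 1 = N by ring, a2]; rfl
      · intro k hk
        rw [F2, b3 _ (by omega)]
      · rw [F2, b4]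
      · intro k hk
        rw [F1, b1 _ (by omega), b3 _ (by omega)]; ring
      · rw [F1, show n + 1 + 1 - 2 = n by ring, show n + 1 + 1 - 1 = n + 1 by ring, b2, b4, e2]
        ring

/-- faithfulness on the parabolic subgroup of a pair -/
lemma pair_faithful {g : Art M} (hg : g ∈ cl M ({s, t} : Set S)) (h : V2 s t g = 1) : g = 1 := by
  have h2 := two_le hst hM
  have hbr : alt (M s t) (sg M s) (sg M t) = alt (M s t) (sg M t) (sg M s) := sg_braid hM
  have hg' : g ∈ Subgroup.closure ({sg M s, sg M t} : Set (Art M)) := by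
    rwa [cl, Set.image_pair] at hg
  obtain ⟨j, l, hl, rfl⟩ := nf_all hbr h2 hg'
  have hw : V2 s t (wp (sg M s) (sg M t) l) = V2 s t ((dl M s t) ^ (-j)) := by
    have e : V2 s t ((dl M s t) ^ (-j)) * V2 s t ((dl M s t) ^ j * wp (sg M s) (sg M t) l) =
        V2 s t (wp (sg M s) (sg M t) l) := by
      have hg2 : (dl M s t) ^ j * wp (sg M s) (sg M t) l ∈ cl M ({s, t} : Set S) := hg
      rw [← V2_mul hst _ hg2, ← mul_assoc, ← _root_.zpow_add]
      simp
    have h' : V2 s t ((dl M s t) ^ j * wp (sg M s) (sg M t) l) = 1 := h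
    rw [h', mul_one] at e
    exact e.symm
  have hh := homog_zpow hst hM (-j)
  rw [← hw] at hh
  cases l with
  | nil =>
    obtain ⟨c, hc⟩ := hh true true
    rw [wp_nil, V2_one hst, Matrix.one_apply_eq] at hc
    have h0 : (1 : ℝ[T;T⁻¹]).coeff 0 = 1 := by rw [← T_zero, T_apply, if_pos rfl]
    rw [hc, coeff_C_mul, T_apply] at h0
    have : -j * ((M s t : ℕ) : ℤ) = 0 := by
      by_contra hne
      rw [if_neg hne, mul_zero] at h0
      exact zero_ne_one h0
    have hm0 : ((M s t : ℕ) : ℤ) ≠ 0 := by exact_mod_cast hM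
    have hj : j = 0 := by
      rcases mul_eq_zero.1 this with h | h
      · omega
      · exact absurd h hm0
    rw [hj]; simp
  | cons x l =>
    exfalso
    obtain ⟨y, N, n, κ, κ', hκ, hκ', hnN, a1, a2, a3, a4, b1, b2, b3, b4⟩ :=
      extreme hst hM l x hl
    have hp : chb (lamR M s t) (run (x :: l)) ≠ 0 := (chb_cos_pos h2 (run_pos x l) hl.1).ne'
    obtain ⟨c, hc⟩ := hh x y
    obtain ⟨c', hc'⟩ := hh (!x) (!y)
    have e1 : -j * ((M s t : ℕ) : ℤ) = N := by
      by_contra hne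
      rw [hc, coeff_C_mul, T_apply, if_neg hne, mul_zero] at a2
      exact mul_ne_zero hκ hp a2.symm
    have e2 : -j * ((M s t : ℕ) : ℤ) = n := by
      by_contra hne
      rw [hc', coeff_C_mul, T_apply, if_neg hne, mul_zero] at b2
      exact mul_ne_zero hκ' hp b2.symm
    omega

lemma pair_faithful' {g : Art M} (hg : g ∈ cl M ({s, t} : Set S)) (h : C0 (PR M) g = 0) :
    g = 1 := pair_faithful hst hM hg (V2_eq_one hst h)

end pair

end Pool.Agent.TH107.RF
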