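import Pool.Agent.TH107.RF.Art

set_option autoImplicit false

namespace Pool.Agent.TH107.RF

open Matrix

variable {S : Type*} [Fintype S] [DecidableEq S] {M : CoxeterMatrix S}
variable {L : Type*} [CommRing L] (P : Par M L)

/-- free algebra on the pairs -/
abbrev FA (S L : Type*) [CommRing L] := MonoidAlgebra L (FreeMonoid (S × S))

/-- the generic entries -/
noncomputable def bf (S L : Type*) [CommRing L] : S → S → FA S L :=
  fun s t => MonoidAlgebra.single (FreeMonoid.of (s, t)) 1

/-- degree bound -/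
def DegLE (n : ℕ) (f : FA S L) : Prop := ∀ w : FreeMonoid (S × S), n < w.length → f.coeff w = 0

omit [Fintype S] [DecidableEq S] in
lemma coeff_mul_algebraMap (f : FA S L) (c : L) (w : FreeMonoid (S × S)) :
    (f * algebraMap L (FA S L) c).coeff w = f.coeff w * c := by
  have : algebraMap L (FA S L) c = MonoidAlgebra.single 1 c := by simp
  rw [this, MonoidAlgebra.coeff_mul_single_one]

omit [Fintype S] [DecidableEq S] in
lemma coeff_algebraMap_one (c : L) : (algebraMap L (FA S L) c).coeff 1 = c := by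
  have : algebraMap L (FA S L) c = MonoidAlgebra.single 1 c := by simp
  rw [this]; simp

omit [Fintype S] [DecidableEq S] in
lemma coeff_algebraMap_ne (c : L) {w : FreeMonoid (S × S)} (hw : 0 < w.length) :
    (algebraMap L (FA S L) c).coeff w = 0 := by
  classical
  have : algebraMap L (FA S L) c = MonoidAlgebra.single 1 c := by simp
  rw [this, MonoidAlgebra.coeff_single, Finsupp.single_apply, if_neg]
  rintro rfl
  simp at hw

omit [Fintype S] [DecidableEq S] in
lemma coeff_mul_bf_self (f : FA S L) (s t : S) (w : FreeMonoid (S × S)) :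
    (f * bf S L s t).coeff (w * FreeMonoid.of (s, t)) = f.coeff w := by
  rw [bf, MonoidAlgebra.coeff_mul_single_eq_coeff_mul w, mul_one]
  intro m _
  exact mul_left_inj _

omit [Fintype S] [DecidableEq S] in
lemma concat_inj {w w' : FreeMonoid (S × S)} {p q : S × S}
    (h : w * FreeMonoid.of p = w' * FreeMonoid.of q) : w = w' ∧ p = q := by
  have h' : w.toList ++ [p] = w'.toList ++ [q] := congrArg FreeMonoid.toList h
  have := List.append_inj' h' rfl
  refine ⟨?_, by simpa using this.2⟩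
  exact FreeMonoid.toList.injective this.1

omit [Fintype S] [DecidableEq S] in
lemma coeff_mul_bf_ne (f : FA S L) {s t : S} {q : S × S} (h : (s, t) ≠ q)
    (w : FreeMonoid (S × S)) :
    (f * bf S L s t).coeff (w * FreeMonoid.of q) = 0 := by
  rw [bf, MonoidAlgebra.coeff_mul_single_of_forall_mul_ne]
  intro d hd
  exact h (concat_inj hd).2

omit [Fintype S] [DecidableEq S] in
lemma DegLE.mono {n m : ℕ} (h : n ≤ m) {f : FA S L} (hf : DegLE n f) : DegLE m f :=
  fun w hw => hf w (lt_of_le_of_lt h hw)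

omit [Fintype S] [DecidableEq S] in
lemma DegLE.add {n : ℕ} {f g : FA S L} (hf : DegLE n f) (hg : DegLE n g) : DegLE n (f + g) := by
  intro w hw
  rw [MonoidAlgebra.coeff_add, Finsupp.add_apply, hf w hw, hg w hw, add_zero]

omit [Fintype S] [DecidableEq S] in
lemma DegLE.sum {ι : Type*} {n : ℕ} (s : Finset ι) {f : ι → FA S L}
    (hf : ∀ i ∈ s, DegLE n (f i)) : DegLE n (∑ i ∈ s, f i) := by
  intro w hw
  rw [MonoidAlgebra.coeff_sum, Finsupp.finset_sum_apply]
  exact Finset.sum_eq_zero (fun i hi => hf i hi w hw)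

omit [Fintype S] [DecidableEq S] in
lemma DegLE.mul_algebraMap {n : ℕ} {f : FA S L} (hf : DegLE n f) (c : L) :
    DegLE n (f * algebraMap L (FA S L) c) := by
  intro w hw
  rw [coeff_mul_algebraMap, hf w hw, zero_mul]

omit [Fintype S] [DecidableEq S] in
lemma degLE_algebraMap (n : ℕ) (c : L) : DegLE n (algebraMap L (FA S L) c) := by
  intro w hw
  exact coeff_algebraMap_ne c (by omega)

omit [Fintype S] [DecidableEq S] in
lemma DegLE.mul_bf {n : ℕ} {f : FA S L} (hf : DegLE n f) (s t : S) :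
    DegLE (n + 1) (f * bf S L s t) := by
  intro w hw
  rcases List.eq_nil_or_concat w.toList with h | ⟨l, q, h⟩
  · exfalso
    have : w.length = 0 := by rw [FreeMonoid.length, h]; rfl
    omega
  · have hw' : w = FreeMonoid.ofList l * FreeMonoid.of q := by
      apply FreeMonoid.toList.injective
      simpa using h
    rw [hw', FreeMonoid.length_mul, FreeMonoid.length_of] at hw
    rw [hw']
    by_cases hq : (s, t) = q
    · subst hq
      rw [coeff_mul_bf_self]
      exact hf _ (by omega)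
    · exact coeff_mul_bf_ne f hq _

lemma DegLE.mul_gram {n : ℕ} {f : FA S L} (hf : DegLE n f) (s t : S) :
    DegLE (n + 1) (f * gram P (bf S L) s t) := by
  by_cases h : M s t = 0
  · have hst : s ≠ t := by rintro rfl; simp at h
    rw [gram_inf P _ hst h]
    exact hf.mul_bf s t
  · rw [gram_eq P _ h]
    exact (hf.mul_algebraMap _).mono (Nat.le_succ n)

/-- the generic matrix -/
noncomputable abbrev CG (g : Art M) : Matrix S S (FA S L) := Cm P (bf S L) g

lemma CG_deg_mul {n : ℕ} {g a : Art M} (hg : ∀ x s, DegLE n (CG P g x s)) {X : Set S}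
    (hX : InfFree M X) (ha : a ∈ cl M X) : ∀ x s, DegLE (n + 1) (CG P (g * a) x s) := by
  intro x s
  rw [CG, Cm_mul, Cm_fin P _ hX ha]
  refine DegLE.add (DegLE.add ((hg x s).mono (Nat.le_succ n)) ?_) ?_
  · rw [Matrix.map_apply]; exact degLE_algebraMap _ _
  · rw [Matrix.mul_apply]
    refine DegLE.sum _ (fun k _ => ?_)
    rw [Matrix.map_apply, Matrix.mul_apply]
    exact DegLE.mul_algebraMap (DegLE.sum _ (fun l _ => (hg x l).mul_gram P l k)) _

lemma CG_deg_fin {a : Art M} {X : Set S}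
    (hX : InfFree M X) (ha : a ∈ cl M X) : ∀ x s, DegLE 0 (CG P a x s) := by
  intro x s
  rw [CG, Cm_fin P _ hX ha, Matrix.map_apply]
  exact degLE_algebraMap _ _

lemma CG_coeff_mul {n : ℕ} {g a : Art M} (hg : ∀ x s, DegLE n (CG P g x s)) {X : Set S}
    (hX : InfFree M X) (ha : a ∈ cl M X) (x s t s' : S) (hst : M s t = 0)
    (w : FreeMonoid (S × S)) (hw : w.length = n) :
    (CG P (g * a) x s').coeff (w * FreeMonoid.of (s, t)) =
      (CG P g x s).coeff w * C0 P a t s' := by
  have hlen : n < (w * FreeMonoid.of (s, t)).length := by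
    rw [FreeMonoid.length_mul, FreeMonoid.length_of]; omega
  rw [CG, Cm_mul, Cm_fin P _ hX ha, Matrix.add_apply, Matrix.add_apply,
    MonoidAlgebra.coeff_add, MonoidAlgebra.coeff_add, Finsupp.add_apply, Finsupp.add_apply,
    hg x s' _ hlen, Matrix.map_apply, coeff_algebraMap_ne _ (by omega), zero_add, zero_add,
    Matrix.mul_apply, MonoidAlgebra.coeff_sum, Finsupp.finset_sum_apply]
  have hne : s ≠ t := by rintro rfl; simp at hst
  rw [Finset.sum_eq_single t]
  · rw [Matrix.map_apply, coeff_mul_algebraMap]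
    congr 1
    rw [Matrix.mul_apply, MonoidAlgebra.coeff_sum, Finsupp.finset_sum_apply,
      Finset.sum_eq_single s]
    · rw [gram_inf P _ hne hst, coeff_mul_bf_self]
    · intro l _ hl
      by_cases h : M l t = 0
      · have hlt : l ≠ t := by rintro rfl; simp at h
        rw [gram_inf P _ hlt h, coeff_mul_bf_ne]
        intro e; exact hl (congrArg Prod.fst e)
      · rw [gram_eq P _ h, coeff_mul_algebraMap, hg x l _ hlen, zero_mul]
    · intro h; exact absurd (Finset.mem_univ _) h
  · intro k _ hk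
    rw [Matrix.map_apply, coeff_mul_algebraMap, Matrix.mul_apply, MonoidAlgebra.coeff_sum,
      Finsupp.finset_sum_apply, Finset.sum_eq_zero, zero_mul]
    intro l _
    by_cases h : M l k = 0
    · have hlt : l ≠ k := by rintro rfl; simp at h
      rw [gram_inf P _ hlt h, coeff_mul_bf_ne]
      intro e; exact hk (congrArg Prod.snd e)
    · rw [gram_eq P _ h, coeff_mul_algebraMap, hg x l _ hlen, zero_mul]
  · intro h; exact absurd (Finset.mem_univ _) h

/-- the decomposition property of the specialised representation -/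
def HasP : Prop := ∀ X : Set S, InfFree M X → ∀ g ∈ cl M X, ∀ E ⊆ X,
  ∃ y ∈ cl M (X \ E), ∃ r ∈ cl M {s | s ∈ X ∧ ∃ t ∈ E, C0 P g t s ≠ 0}, g = y * r

/-- products of `k` elements of infinity-free parabolic subgroups -/
def Prods (M : CoxeterMatrix S) : ℕ → Set (Art M)
  | 0 => {1}
  | k + 1 => {g | ∃ h ∈ Prods M k, ∃ X : Set S, InfFree M X ∧ ∃ a ∈ cl M X, g = h * a}

lemma exists_prods (g : Art M) : ∃ k, g ∈ Prods M k := by
  have key : g ∈ (⊤ : Subgroup (Art M)) := trivial
  rw [← cl_univ, cl] at key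
  have hinf : ∀ s : S, InfFree M {s} := by
    intro s a ha b hb
    rw [Set.mem_singleton_iff] at ha hb
    subst ha; subst hb; simp
  induction key using Subgroup.closure_induction_right with
  | one => exact ⟨0, rfl⟩
  | mul_right x _ y hy ih =>
    obtain ⟨k, hk⟩ := ih
    obtain ⟨s, -, rfl⟩ := hy
    exact ⟨k + 1, x, hk, {s}, hinf s, _, sg_mem_cl rfl, rfl⟩
  | mul_inv_cancel x _ y hy ih =>
    obtain ⟨k, hk⟩ := ih
    obtain ⟨s, -, rfl⟩ := hy
    exact ⟨k + 1, x, hk, {s}, hinf s, _, (cl M {s}).inv_mem (sg_mem_cl rfl), rfl⟩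

lemma prods_deg (k : ℕ) : ∀ g ∈ Prods M (k + 1), ∀ x s, DegLE k (CG P g x s) := by
  induction k with
  | zero =>
    rintro g ⟨h, hh, X, hX, a, ha, rfl⟩
    have : h = 1 := hh
    rw [this, one_mul]
    exact CG_deg_fin P hX ha
  | succ k ih =>
    rintro g ⟨h, hh, X, hX, a, ha, rfl⟩
    exact CG_deg_mul P (ih h hh) hX ha

/-- the key step -/
lemma step [IsDomain L] (hP : HasP P) (k : ℕ) : ∀ g ∈ Prods M (k + 1), ∃ R : Set S, InfFree M R ∧
    ∃ h ∈ Prods M k, ∃ r ∈ cl M R, g = h * r ∧
      ∀ s ∈ R, ∃ (x : S) (w : FreeMonoid (S × S)), w.length = k ∧ (CG P g x s).coeff w ≠ 0 := by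
  induction k with
  | zero =>
    rintro g ⟨h, hh, X, hX, a, ha, rfl⟩
    have h1 : h = 1 := hh
    subst h1
    obtain ⟨y, hy, r, hr, e⟩ := hP X hX a ha X (le_refl X)
    rw [Set.diff_self] at hy
    have hy1 := cl_empty hy
    subst hy1
    refine ⟨_, fun s hs t ht => hX s hs.1 t ht.1, 1, rfl, r, hr, by rw [e, one_mul], ?_⟩
    rintro s ⟨-, t, -, hts⟩
    refine ⟨t, 1, rfl, ?_⟩
    rw [one_mul, CG, Cm_fin P _ hX ha, Matrix.map_apply, coeff_algebraMap_one]
    exact hts
  | succ k ih =>
    rintro g ⟨g', hg', X, hX, a, ha, rfl⟩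
    obtain ⟨R, hR, h, hh, r, hr, e, hc⟩ := ih g' hg'
    obtain ⟨y, hy, r', hr', e'⟩ := hP X hX a ha {t | t ∈ X ∧ ∃ s ∈ R, M s t = 0}
      (fun t ht => ht.1)
    set E : Set S := {t | t ∈ X ∧ ∃ s ∈ R, M s t = 0} with hE
    refine ⟨_, fun s hs t ht => hX s hs.1 t ht.1, h * (r * y), ?_, r', hr', ?_, ?_⟩
    · refine ⟨h, hh, R ∪ (X \ E), ?_, r * y, ?_, rfl⟩
      · rintro s (hs | ⟨hs, hs'⟩) t (ht | ⟨ht, ht'⟩)
        · exact hR s hs t ht
        · intro h0; exact ht' ⟨ht, s, hs, h0⟩
        · intro h0; exact hs' ⟨hs, t, ht, by rwa [M.symmetric]⟩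
        · exact hX s hs t ht
      · exact mul_mem (cl_mono Set.subset_union_left hr) (cl_mono Set.subset_union_right hy)
    · rw [e, e']; group
    · rintro s' ⟨-, t, ht, hts⟩
      obtain ⟨-, s, hs, hst⟩ := ht
      obtain ⟨x, w, hw, hne⟩ := hc s hs
      refine ⟨x, w * FreeMonoid.of (s, t), ?_, ?_⟩
      · rw [FreeMonoid.length_mul, FreeMonoid.length_of, hw]
      · rw [CG_coeff_mul P (prods_deg P k g' hg') hX ha x s t s' hst w hw]
        exact mul_ne_zero hne hts

/-- faithfulness -/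
theorem faithful [IsDomain L] (hP : HasP P) {g : Art M} (hg : g ≠ 1) :
    ∃ (x s : S) (w : FreeMonoid (S × S)), (CG P g x s).coeff w ≠ 0 := by
  classical
  have hex := exists_prods g
  let k := Nat.find hex
  have hk : g ∈ Prods M k := Nat.find_spec hex
  rcases Nat.eq_zero_or_pos k with h0 | h0
  · rw [h0] at hk; exact absurd hk hg
  · obtain ⟨j, hj⟩ := Nat.exists_eq_succ_of_ne_zero (Nat.pos_iff_ne_zero.1 h0)
    rw [hj] at hk
    obtain ⟨R, hR, h, hh, r, hr, e, hc⟩ := step P hP j g hk
    rcases Set.eq_empty_or_nonempty R with hRe | ⟨s, hs⟩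
    · exfalso
      rw [hRe] at hr
      have := cl_empty hr
      rw [this, mul_one] at e
      rw [← e] at hh
      exact Nat.find_min hex (m := j) (by omega) hh
    · obtain ⟨x, w, -, hne⟩ := hc s hs
      exact ⟨x, s, w, hne⟩

end Pool.Agent.TH107.RF
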