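import Pool.Agent.TH107.RF.Filt

set_option autoImplicit false

namespace Pool.Agent.TH107.RF

/-- a finitely generated group with a nontrivial homomorphism to a torsion-free abelian group has a
nontrivial homomorphism to the integers -/
theorem to_int {K V : Type*} [Group K] [hK : Group.FG K] [AddCommGroup V]
    (htf : ∀ (n : ℕ) (x : V), n ≠ 0 → n • x = 0 → x = 0)
    (f : K →* Multiplicative V) (hf : ∃ k, f k ≠ 1) :
    ∃ φ : K →* Multiplicative ℤ, ∃ k, φ k ≠ 1 := by
  classical
  let fa : Additive K →+ V := MonoidHom.toAdditiveLeft f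
  let W := fa.range
  have h1 : AddGroup.FG W := by
    have : AddGroup.FG (Additive K) := inferInstance
    exact AddGroup.fg_of_surjective (f := fa.rangeRestrict) fa.rangeRestrict_surjective
  have h2 : Module.Finite ℤ W := Module.Finite.iff_addGroup_fg.2 h1
  have h3 : Module.IsTorsionFree ℤ W := by
    rw [Module.isTorsionFree_int_iff_isAddTorsionFree]
    constructor
    intro n hn x y hxy
    have : n • ((x : V) - (y : V)) = 0 := by
      have := congrArg (Subtype.val) hxy
      simp only [AddSubgroup.coe_nsmul] at this
      rw [nsmul_sub, this, sub_self]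
    exact Subtype.ext (sub_eq_zero.1 (htf n _ hn this))
  have h4 : Module.Free ℤ W := Module.free_of_finite_type_torsion_free'
  obtain ⟨k, hk⟩ := hf
  let w : W := fa.rangeRestrict (Additive.ofMul k)
  have hw : w ≠ 0 := by
    intro h0
    apply hk
    have : (w : V) = 0 := by rw [h0]; rfl
    exact this
  let B := Module.Free.chooseBasis ℤ W
  obtain ⟨i, hi⟩ : ∃ i, B.coord i w ≠ 0 := by
    by_contra hcon
    push Not at hcon
    exact hw (B.forall_coord_eq_zero_iff.1 hcon)
  let ga : Additive K →+ ℤ := (B.coord i).toAddMonoidHom.comp fa.rangeRestrict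
  refine ⟨AddMonoidHom.toMultiplicativeRight ga, k, ?_⟩
  exact hi

end Pool.Agent.TH107.RF
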