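import Pool.Agent.TH107.RF.Mono

set_option autoImplicit false

namespace Pool.Agent.TH107.RF

open Matrix LaurentPolynomial RFilt

/-! ### shifting the variables -/

section shift
variable {S : Type*} [Fintype S] [DecidableEq S] {M : CoxeterMatrix S}
variable {L : Type*} [CommRing L] (P : Par M L) (c : L)

/-- the shifted variables -/
noncomputable def bs (S : Type*) (c : L) : S → S → FA S L :=
  fun s t => bf S L s t + algebraMap L (FA S L) c

/-- the shift of the variables -/
noncomputable def shf (S : Type*) (c : L) : FA S L →ₐ[L] FA S L :=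
  MonoidAlgebra.lift L (FA S L) (FreeMonoid (S × S)) (FreeMonoid.lift (fun p => bs S c p.1 p.2))

omit [Fintype S] [DecidableEq S] in
lemma shf_bf (s t : S) : shf S c (bf S L s t) = bs S c s t := by
  rw [shf, bf, MonoidAlgebra.lift_single, FreeMonoid.lift_eval_of, one_smul]

omit [Fintype S] [DecidableEq S] in
lemma shf_inj : Function.Injective (shf S c) := by
  have h : (shf S (-c)).comp (shf S c) = AlgHom.id L (FA S L) := by
    apply MonoidAlgebra.algHom_ext'
    · apply FreeMonoid.hom_eq
      intro p
      change shf S (-c) (shf S c (bf S L p.1 p.2)) = bf S L p.1 p.2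
      rw [shf_bf, bs, map_add, shf_bf, bs, AlgHom.commutes, map_neg]
      abel
    · ext
  intro x y hxy
  have := congrArg (shf S (-c)) hxy
  have h1 : ∀ z, shf S (-c) (shf S c z) = z := fun z => DFunLike.congr_fun h z
  rwa [h1, h1] at this

lemma shf_faithful (hf : ∀ g : Art M, Cm P (bf S L) g = 0 → g = 1) (g : Art M)
    (hg : Cm P (bs S c) g = 0) : g = 1 := by
  have e : Cm P (bs S c) g = (Cm P (bf S L) g).map (shf S c : FA S L →+* FA S L) := by
    apply Cm_nat
    intro a b
    by_cases hab : a = b
    · subst hab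
      rw [gram_self, gram_self]
      exact (shf S c).commutes _
    · by_cases h0 : M a b = 0
      · rw [gram_inf _ _ hab h0, gram_inf _ _ hab h0]
        exact shf_bf c a b
      · rw [gram_fin _ _ hab h0, gram_fin _ _ hab h0]
        exact (shf S c).commutes _
  apply hf
  rw [e] at hg
  ext1 x s
  have h1 := congrFun (congrFun hg x) s
  rw [Matrix.map_apply] at h1
  have h2 : shf S c (Cm P (bf S L) g x s) = shf S c 0 := by rw [map_zero]; exact h1
  exact shf_inj c h2

end shift

/-! ### the augmentation -/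

section aug
variable {S L K : Type*} [CommRing L] [CommRing K] (ε : L →+* K)

/-- the homomorphism killing all letters -/
def zl (S K : Type*) [CommRing K] : FreeMonoid (S × S) →* K := FreeMonoid.lift (fun _ => 0)

/-- the augmentation followed by a ring homomorphism -/
noncomputable def aug (S : Type*) : FA S L →+* K :=
  MonoidAlgebra.liftNCRingHom ε (zl S K) (fun x y => Commute.all _ _)

lemma zl_ne {w : FreeMonoid (S × S)} (hw : w ≠ 1) : zl S K w = 0 := by
  induction w using FreeMonoid.casesOn with
  | one => exact absurd rfl hw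
  | of_mul p w => rw [map_mul, zl, FreeMonoid.lift_eval_of, zero_mul]

lemma aug_apply (f : FA S L) : aug ε S f = ε (f.coeff 1) := by
  classical
  induction f using MonoidAlgebra.induction_linear with
  | zero => simp
  | add f g hf hg => rw [map_add, hf, hg, MonoidAlgebra.coeff_add, Finsupp.add_apply, map_add]
  | single m a =>
    rw [aug, MonoidAlgebra.liftNCRingHom_single, MonoidAlgebra.coeff_single, Finsupp.single_apply]
    by_cases h : m = 1
    · rw [if_pos h, h, map_one, mul_one]
    · rw [if_neg h, zl_ne h, mul_zero, map_zero]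

end aug

section main
variable {S : Type*} [Fintype S] [DecidableEq S] {M : CoxeterMatrix S}

/-- the special value of the parameter -/
noncomputable def zm (m : ℕ) : ℂ := -Complex.exp ((Real.pi / m : ℝ) * Complex.I)

lemma zm_ne (m : ℕ) : zm m ≠ 0 := neg_ne_zero.2 (Complex.exp_ne_zero _)

lemma zm_eq (m : ℕ) : (zm m) ^ 2 + ((2 * Real.cos (Real.pi / m) : ℝ) : ℂ) * zm m + 1 = 0 := by
  set a := Complex.exp ((Real.pi / m : ℝ) * Complex.I) with ha
  have h1 : ((2 * Real.cos (Real.pi / m) : ℝ) : ℂ) = a + a⁻¹ := by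
    rw [ha, ← Complex.exp_neg]
    push_cast
    rw [Complex.cos]
    push_cast
    ring_nf
  have h2 : zm m = -a := rfl
  have h3 : a ≠ 0 := Complex.exp_ne_zero _
  rw [h1, h2]
  field_simp
  ring

/-- the specialisation -/
noncomputable def evm (m : ℕ) : ℝ[T;T⁻¹] →+* ℂ :=
  eval₂ (algebraMap ℝ ℂ) (Units.mk0 (zm m) (zm_ne m))

lemma evm_C (m : ℕ) (c : ℝ) : evm m (C c) = (c : ℂ) := by simp [evm]
lemma evm_T (m : ℕ) : evm m (T 1) = zm m := by simp [evm]

lemma ker_evm_ne (m : ℕ) : RingHom.ker (evm m) ≠ ⊤ := RingHom.ker_ne_top _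

/-- constancy of the specialised Gram matrix -/
lemma gram_const {m : ℕ} (hm : ∀ s t : S, s ≠ t → M s t ≠ 0 → M s t = m) (s t : S) :
    gram ((PR M).map (evm m)) (fun _ _ => -(1 + (zm m) ^ 2)) s t = -(1 + (zm m) ^ 2) := by
  by_cases hst : s = t
  · subst hst
    rw [gram_self]
    change -(1 + (evm m (T 1)) ^ 2) = _
    rw [evm_T]
  · by_cases h0 : M s t = 0
    · rw [gram_inf _ _ hst h0]
    · rw [gram_fin _ _ hst h0]
      change evm m (T 1) * evm m (C (lamR M s t)) = _
      rw [evm_T, evm_C, lamR, hm s t hst h0]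
      linear_combination zm_eq m

lemma nat_aug {m : ℕ} (g : Art M) :
    Cm ((PR M).map (evm m)) (fun _ _ => -(1 + (zm m) ^ 2)) g =
      (Cm (PR M) (bs S (-(1 + (T 1 : ℝ[T;T⁻¹]) ^ 2))) g).map (aug (evm m) S) := by
  classical
  have key : ∀ x : ℝ[T;T⁻¹], aug (evm m) S (algebraMap ℝ[T;T⁻¹] (FA S ℝ[T;T⁻¹]) x) = evm m x := by
    intro x
    rw [aug_apply, coeff_algebraMap_one]
  apply Cm_nat
  intro a b
  by_cases hab : a = b
  · subst hab
    rw [gram_self, gram_self, key]
    change _ = -(1 + (evm m (T 1)) ^ 2)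
    change evm m (-(1 + (T 1) ^ 2)) = _
    rw [map_neg, map_add, map_one, map_pow]
  · by_cases h0 : M a b = 0
    · rw [gram_inf _ _ hab h0, gram_inf _ _ hab h0, bs, map_add, key, aug_apply, bf,
        MonoidAlgebra.coeff_single, Finsupp.single_apply, if_neg, map_zero, zero_add, map_neg,
        map_add, map_one, map_pow, evm_T]
      intro h
      have := congrArg FreeMonoid.length h
      simp at this
    · rw [gram_fin _ _ hab h0, gram_fin _ _ hab h0, key]
      change evm m (T 1 * C (lamR M a b)) = evm m (T 1) * evm m (C (lamR M a b))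
      rw [map_mul]

/-- Artin groups with only one finite label, at least three, and no triangle with finite labels are
locally indicable. -/
theorem li_single (hR : RankTwo M) {m : ℕ} (hm3 : 3 ≤ m)
    (hm : ∀ s t : S, s ≠ t → M s t ≠ 0 → M s t = m) : LI (Art M) := by
  intro H hH hne
  set z := zm m with hz
  set P := (PR M).map (evm m) with hP
  have hcos : 0 < Real.cos (Real.pi / m) := by
    apply Real.cos_pos_of_mem_Ioo
    have hmpos : (3 : ℝ) ≤ m := by exact_mod_cast hm3
    have hpi := Real.pi_pos
    constructor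
    · have : 0 < Real.pi / m := by positivity
      linarith
    · rw [div_lt_div_iff_of_pos_left hpi (by linarith) (by norm_num)]
      linarith
  have hθ : IsUnit (1 + z ^ 2) := by
    rw [isUnit_iff_ne_zero]
    intro h0
    have h1 := zm_eq m
    rw [← hz] at h1
    have h2 : ((2 * Real.cos (Real.pi / m) : ℝ) : ℂ) * z = 0 := by linear_combination h1 - h0
    rcases mul_eq_zero.1 h2 with h3 | h3
    · have h4 : (2 * Real.cos (Real.pi / m) : ℝ) = 0 := by exact_mod_cast h3
      linarith
    · exact zm_ne m h3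
  have hu : ∃ u : ℂˣ, (u : ℂ) = 1 - (1 + z ^ 2) := by
    refine ⟨Units.mk0 (-(z ^ 2)) (neg_ne_zero.2 (pow_ne_zero 2 (zm_ne m))), ?_⟩
    rw [Units.val_mk0]; ring
  obtain ⟨u, hu⟩ := hu
  rcases const_hom P (fun _ _ => -(1 + z ^ 2)) (1 + z ^ 2) (gram_const hm)
    (fun n x hn hx => by
      rw [nsmul_eq_mul] at hx
      rcases mul_eq_zero.1 hx with h | h
      · exact absurd (Nat.cast_eq_zero.1 h) hn
      · exact h) u hu hθ hH with h | h
  · exact h
  · set c : ℝ[T;T⁻¹] := -(1 + (T 1 : ℝ[T;T⁻¹]) ^ 2) with hc
    have hfaith : ∀ g : Art M, Cm (PR M) (bs S c) g = 0 → g = 1 :=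
      fun g hg => shf_faithful (PR M) c (fun g hg => faithful0 hR hg) g hg
    apply li_of_filt (PR M) (bs S c) (filP S (RingHom.ker (evm m)) unit_nat 1)
      (filP_sep (bs S c) hfaith (ker_evm_ne m) 1) hH hne
    intro g hg
    rw [mem_KF]
    intro x s w
    by_cases hw : w = 1
    · subst hw
      have h1 := h g hg
      rw [hP, hz, nat_aug] at h1
      have h2 := congrFun (congrFun h1 x) s
      rw [Matrix.map_apply, aug_apply] at h2
      have e : 1 - 1 * (1 : FreeMonoid (S × S)).length = 1 := rfl
      rw [e, pow_one, RingHom.mem_ker]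
      exact h2
    · have : 1 ≤ w.length := by
        rcases Nat.eq_zero_or_pos w.length with h0 | h0
        · exact absurd (FreeMonoid.length_eq_zero.1 h0) hw
        · exact h0
      have e : 1 - 1 * w.length = 0 := by omega
      rw [e, pow_zero, Ideal.one_eq_top]
      trivial

end main

end Pool.Agent.TH107.RF
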