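import Pool.Agent.TH107.RF.Faith

set_option autoImplicit false

namespace Pool.Agent.TH107.RF

open Matrix LaurentPolynomial

/-- an element of norm one is a monomial -/
lemma monomial_of_norm {x y : ℝ[T;T⁻¹]} (h : x * y = 1) : ∃ (c : ℝ) (k : ℤ), x = C c * T k := by
  obtain ⟨n, f, hf⟩ := exists_T_pow x
  obtain ⟨n', f', hf'⟩ := exists_T_pow y
  have h1 : Polynomial.toLaurent (f * f') =
      Polynomial.toLaurent ((Polynomial.X : Polynomial ℝ) ^ (n + n')) := by
    rw [map_mul, hf, hf', Polynomial.toLaurent_X_pow]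
    have : x * T (n : ℤ) * (y * T (n' : ℤ)) = (x * y) * (T (n : ℤ) * T (n' : ℤ)) := by ring
    rw [this, h, one_mul, ← T_add]
    push_cast; rfl
  have h2 : f * f' = (Polynomial.X : Polynomial ℝ) ^ (n + n') := Polynomial.toLaurent_injective h1
  have h3 : f ∣ (Polynomial.X : Polynomial ℝ) ^ (n + n') := ⟨f', h2.symm⟩
  obtain ⟨i, -, hi⟩ := (dvd_prime_pow Polynomial.prime_X (n + n')).1 h3
  obtain ⟨u, hu⟩ := hi.symm
  obtain ⟨c, -, hc⟩ := Polynomial.isUnit_iff.1 u.isUnit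
  have h4 : x * T (n : ℤ) = T (i : ℤ) * C c := by
    rw [← hf, ← hu, map_mul, Polynomial.toLaurent_X_pow, ← hc, Polynomial.toLaurent_C]
  refine ⟨c, i - n, ?_⟩
  calc x = x * T (n : ℤ) * T (-(n : ℤ)) := by rw [mul_assoc, ← T_add]; simp
    _ = C c * T (i - n) := by
      rw [h4, sub_eq_add_neg, T_add]; ring

/-- evaluation at the imaginary unit -/
noncomputable def evI : ℝ[T;T⁻¹] →+* ℂ :=
  eval₂ (algebraMap ℝ ℂ) (Units.mk0 Complex.I Complex.I_ne_zero)

lemma evI_C (c : ℝ) : evI (C c) = (c : ℂ) := by simp [evI]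

lemma evI_T (n : ℤ) : evI (T n) = Complex.I ^ n := by simp [evI]

lemma I_zpow_two_mul (j : ℤ) : Complex.I ^ (2 * j) = ((-1 : ℝ) ^ j : ℝ) := by
  rw [_root_.zpow_mul]
  have : (Complex.I : ℂ) ^ (2 : ℤ) = -1 := by
    rw [show (2 : ℤ) = ((2 : ℕ) : ℤ) by rfl, zpow_natCast, Complex.I_sq]
  rw [this]; push_cast; rfl

lemma neg_one_zpow_sq (j : ℤ) : ((-1 : ℝ) ^ j) * ((-1 : ℝ) ^ j) = 1 := by
  rw [← mul_zpow]; norm_num

/-- solutions of the norm equation -/
lemma norm_eq {μ : ℝ[T;T⁻¹]}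
    (h : T (-2) * invert μ + μ + T (-2) * invert μ * (-(1 + T 2)) * μ = 0) :
    ∃ j : ℤ, 1 - (1 + T 2) * μ = C ((-1 : ℝ) ^ j) * T (2 * j) := by
  have tt : (T (-2) : ℝ[T;T⁻¹]) * T 2 = 1 := by rw [← T_add]; simp
  set x := 1 - (1 + T 2) * μ with hx
  have hbar : invert x = 1 - (1 + T (-2)) * invert μ := by
    rw [hx, map_sub, map_one, map_mul, map_add, map_one, invert_T]
  have h1 : x * invert x = 1 := by
    rw [hbar, hx]
    linear_combination (-(1 + T 2)) * h + (-(invert μ) + (1 + T 2) * μ * invert μ) * (-tt)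
  obtain ⟨c, k, hck⟩ := monomial_of_norm h1
  have h2 : evI x = 1 := by
    rw [hx, map_sub, map_one, map_mul, map_add, map_one, evI_T]
    have : (Complex.I : ℂ) ^ (2 : ℤ) = -1 := by
      rw [show (2 : ℤ) = ((2 : ℕ) : ℤ) by rfl, zpow_natCast, Complex.I_sq]
    rw [this]; ring
  rw [hck, map_mul, evI_C, evI_T] at h2
  rcases Int.even_or_odd' k with ⟨j, hj | hj⟩
  · rw [hj, I_zpow_two_mul] at h2
    refine ⟨j, ?_⟩
    rw [hck, hj]
    have h3 : c * (-1 : ℝ) ^ j = 1 := by exact_mod_cast h2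
    have h4 : c = (-1 : ℝ) ^ j := by
      have := neg_one_zpow_sq j
      calc c = c * ((-1 : ℝ) ^ j * (-1 : ℝ) ^ j) := by rw [this, mul_one]
        _ = _ := by rw [← mul_assoc, h3, one_mul]
    rw [h4]
  · exfalso
    rw [hj, zpow_add₀ Complex.I_ne_zero, I_zpow_two_mul, zpow_one] at h2
    have h5 : ((c : ℂ) * ((((-1 : ℝ) ^ j : ℝ) : ℂ) * Complex.I)).re = 0 := by
      rw [Complex.re_ofReal_mul, Complex.re_ofReal_mul, Complex.I_re]; ring
    rw [h2, Complex.one_re] at h5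
    exact one_ne_zero h5

variable {S : Type*} [Fintype S] [DecidableEq S] {M : CoxeterMatrix S}

lemma G0_symm (s t : S) : G0 (PR M) s t = G0 (PR M) t s := by
  by_cases h : s = t
  · rw [h]
  · have h' : t ≠ s := Ne.symm h
    simp only [G0, gram, if_neg h, if_neg h', M.symmetric s t, (PR M).symm s t, Pi.zero_apply]

lemma G0_bar (s t : S) : invert (G0 (PR M) s t) = T (-2) * G0 (PR M) s t := by
  have tt : (T (-2) : ℝ[T;T⁻¹]) * T 2 = 1 := by rw [← T_add]; simp
  by_cases h : s = t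
  · subst h
    have e : G0 (PR M) s s = -(1 + T 2) := by
      rw [G0, gram_self]
      change -(1 + (T 1) ^ 2) = _
      rw [T_pow]; norm_num
    rw [e, map_neg, map_add, map_one, invert_T]
    linear_combination tt
  · by_cases h0 : M s t = 0
    · have : G0 (PR M) s t = 0 := by rw [G0, gram_inf _ _ h h0]; rfl
      rw [this]; simp
    · have : G0 (PR M) s t = T 1 * C (lamR M s t) := by rw [G0, gram_fin _ _ h h0]; rfl
      rw [this, map_mul, invert_T, invert_C, ← mul_assoc, ← T_add]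
      norm_num

/-- the adjoint -/
noncomputable def th (A : Matrix S S ℝ[T;T⁻¹]) : Matrix S S ℝ[T;T⁻¹] :=
  fun s t => T (-2) * invert (A t s)

omit [Fintype S] [DecidableEq S] in
lemma th_add (A B : Matrix S S ℝ[T;T⁻¹]) : th (A + B) = th A + th B := by
  ext1 s t
  simp only [th, Matrix.add_apply, map_add, mul_add]

omit [Fintype S] [DecidableEq S] in
lemma th_th (A : Matrix S S ℝ[T;T⁻¹]) : th (th A) = A := by
  ext1 s t
  simp only [th, map_mul, invert_T]
  rw [← mul_assoc, ← T_add]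
  have : invert (invert (A s t)) = A s t := involutive_invert _
  rw [this]; simp

lemma th_mul (A B : Matrix S S ℝ[T;T⁻¹]) :
    th (A * G0 (PR M) * B) = th B * G0 (PR M) * th A := by
  ext1 s t
  have e1 : (A * G0 (PR M) * B) t s = ∑ k, ∑ l, A t l * G0 (PR M) l k * B k s := by
    rw [Matrix.mul_apply]
    apply Finset.sum_congr rfl
    intro k _
    rw [Matrix.mul_apply, Finset.sum_mul]
  have e2 : (th B * G0 (PR M) * th A) s t = ∑ l, ∑ k, th B s k * G0 (PR M) k l * th A l t := by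
    rw [Matrix.mul_apply]
    apply Finset.sum_congr rfl
    intro k _
    rw [Matrix.mul_apply, Finset.sum_mul]
  rw [e2, Finset.sum_comm]
  have e3 : th (A * G0 (PR M) * B) s t = T (-2) * invert ((A * G0 (PR M) * B) t s) := rfl
  rw [e3, e1, map_sum, Finset.mul_sum]
  apply Finset.sum_congr rfl
  intro k _
  rw [map_sum, Finset.mul_sum]
  apply Finset.sum_congr rfl
  intro l _
  rw [map_mul, map_mul, G0_bar, G0_symm l k]
  simp only [th]
  ring

/-- unitarity of the representation -/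
lemma th_C0 (g : Art M) : th (C0 (PR M) g) = C0 (PR M) g⁻¹ := by
  have key : g ∈ (⊤ : Subgroup (Art M)) := trivial
  rw [← cl_univ, cl] at key
  induction key using Subgroup.closure_induction with
  | mem x hx =>
    obtain ⟨s, -, rfl⟩ := hx
    rw [C0, C0, Cm_sg, Cm_sg_inv]
    have hw : algebraMap ℝ[T;T⁻¹] ℝ[T;T⁻¹] ((PR M).w ^ 2) = T (-2) := by
      change (T (-1)) ^ 2 = _
      rw [T_pow]; norm_num
    rw [hw]
    ext1 a b
    simp only [th, single_apply]
    by_cases h : s = a ∧ s = b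
    · rw [if_pos h, if_pos ⟨h.2, h.1⟩]; simp
    · rw [if_neg h, if_neg (fun h' => h ⟨h'.2, h'.1⟩)]; simp
  | one =>
    rw [inv_one, C0, Cm_one]
    ext1 a b
    simp [th]
  | mul x y _ _ hx hy =>
    have e1 : C0 (PR M) (x * y) = C0 (PR M) x + C0 (PR M) y +
        C0 (PR M) x * G0 (PR M) * C0 (PR M) y := Cm_mul _ _ _ _
    have e2 : C0 (PR M) (y⁻¹ * x⁻¹) = C0 (PR M) y⁻¹ + C0 (PR M) x⁻¹ +
        C0 (PR M) y⁻¹ * G0 (PR M) * C0 (PR M) x⁻¹ := Cm_mul _ _ _ _
    rw [_root_.mul_inv_rev, e1, e2, th_add, th_add, th_mul, hx, hy, add_comm (C0 (PR M) x⁻¹)]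
  | inv x _ hx =>
    rw [inv_inv, ← hx, th_th]

end Pool.Agent.TH107.RF
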