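import Pool.Agent.TH107.RF.Art
import Pool.Agent.TH107.RF.NF

set_option autoImplicit false

namespace Pool.Agent.TH107.RF

open Matrix LaurentPolynomial

variable {S : Type*} [Fintype S] [DecidableEq S]

/-! ### Chebyshev values -/

lemma chb_cos (θ : ℝ) (k : ℕ) : chb (2 * Real.cos θ) k * Real.sin θ = Real.sin (k * θ) := by
  induction k using Nat.strong_induction_on with
  | _ k ih =>
    match k with
    | 0 => simp [chb]
    | 1 => simp [chb]
    | (k + 2) =>
      have h1 := ih (k + 1) (by omega)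
      have h0 := ih k (by omega)
      have e : chb (2 * Real.cos θ) (k + 2) =
        (2 * Real.cos θ) * chb (2 * Real.cos θ) (k + 1) - chb (2 * Real.cos θ) k := rfl
      rw [e, sub_mul, mul_assoc, h1, h0]
      have a1 : ((k + 2 : ℕ) : ℝ) * θ = ((k + 1 : ℕ) : ℝ) * θ + θ := by push_cast; ring
      have a0 : (k : ℝ) * θ = ((k + 1 : ℕ) : ℝ) * θ - θ := by push_cast; ring
      rw [a1, a0, Real.sin_add, Real.sin_sub]
      ring

lemma sin_pi_div_pos {m : ℕ} (hm : 2 ≤ m) : 0 < Real.sin (Real.pi / m) := by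
  have hm' : (0 : ℝ) < m := by positivity
  apply Real.sin_pos_of_pos_of_lt_pi (by positivity)
  rw [div_lt_iff₀ hm']
  have : (2 : ℝ) ≤ m := by exact_mod_cast hm
  nlinarith [Real.pi_pos]

lemma chb_cos_zero {m : ℕ} (hm : 2 ≤ m) : chb (2 * Real.cos (Real.pi / m)) m = 0 := by
  have h := chb_cos (Real.pi / m) m
  have hm' : (m : ℝ) ≠ 0 := by positivity
  rw [mul_div_cancel₀ _ hm', Real.sin_pi] at h
  exact (mul_eq_zero.1 h).resolve_right (sin_pi_div_pos hm).ne'

lemma chb_cos_pos {m k : ℕ} (hm : 2 ≤ m) (hk : 1 ≤ k) (hkm : k < m) :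
    0 < chb (2 * Real.cos (Real.pi / m)) k := by
  have h := chb_cos (Real.pi / m) k
  have hs := sin_pi_div_pos hm
  have hm' : (0 : ℝ) < m := by positivity
  have : 0 < Real.sin (k * (Real.pi / m)) := by
    apply Real.sin_pos_of_pos_of_lt_pi
    · have : (0 : ℝ) < k := by exact_mod_cast hk
      positivity
    · rw [← mul_div_assoc, div_lt_iff₀ hm', mul_comm]
      have : (k : ℝ) < m := by exact_mod_cast hkm
      nlinarith [Real.pi_pos]
  rw [← h] at this
  exact (pos_iff_pos_of_mul_pos this).2 hs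

lemma chb_cos_pred {m : ℕ} (hm : 2 ≤ m) : chb (2 * Real.cos (Real.pi / m)) (m - 1) = 1 := by
  have h := chb_cos (Real.pi / m) (m - 1)
  have hs := sin_pi_div_pos hm
  have hm' : (m : ℝ) ≠ 0 := by positivity
  have e : ((m - 1 : ℕ) : ℝ) * (Real.pi / m) = Real.pi - Real.pi / m := by
    rw [Nat.cast_sub (by omega)]; field_simp; push_cast; ring
  rw [e, Real.sin_pi_sub] at h
  exact mul_right_cancel₀ hs.ne' (by rw [h, one_mul])

/-- the real parameters -/
noncomputable def lamR (M : CoxeterMatrix S) (s t : S) : ℝ := 2 * Real.cos (Real.pi / (M s t : ℕ))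

/-- the parameters over real Laurent polynomials -/
noncomputable def PR (M : CoxeterMatrix S) : Par M ℝ[T;T⁻¹] where
  v := T 1
  w := T (-1)
  vw := by rw [← T_add]; simp
  lam s t := C (lamR M s t)
  symm s t := by rw [lamR, lamR, M.symmetric]
  cheb s t hst h0 := by
    rw [← map_chb, lamR, chb_cos_zero, map_zero]
    have h1 := M.off_diagonal s t hst
    omega

lemma coeff_T_mul (n k : ℤ) (f : ℝ[T;T⁻¹]) : (T n * f).coeff k = f.coeff (k - n) := by
  rw [T, AddMonoidAlgebra.coeff_single_mul_apply, one_mul, neg_add_eq_sub]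

lemma coeff_C_mul (c : ℝ) (k : ℤ) (f : ℝ[T;T⁻¹]) : (C c * f).coeff k = c * f.coeff k := by
  rw [← smul_eq_C_mul, AddMonoidAlgebra.coeff_smul_apply, smul_eq_mul]

section pair

variable {M : CoxeterMatrix S}

/-- the full matrix -/
noncomputable def V (g : Art M) : Matrix S S ℝ[T;T⁻¹] := 1 + C0 (PR M) g * G0 (PR M)

lemma V_mul (g h : Art M) : V (g * h) = V g * V h := by
  simp only [V, C0, Cm_mul, Matrix.add_mul, Matrix.mul_add, Matrix.one_mul, Matrix.mul_one,
    Matrix.mul_assoc]
  abel

lemma V_one : V (1 : Art M) = 1 := by simp [V, C0, Cm_one]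

variable {s t : S} (hst : s ≠ t)

/-- the two letters -/
def ix (s t : S) : Bool → S
  | true => s
  | false => t

/-- the two by two block -/
noncomputable def V2 (s t : S) (g : Art M) : Matrix Bool Bool ℝ[T;T⁻¹] :=
  fun x y => V g (ix s t x) (ix s t y)

include hst

omit [Fintype S] [DecidableEq S] in
lemma ix_ne (x : Bool) : ix s t x ≠ ix s t (!x) := by
  cases x
  · exact Ne.symm hst
  · exact hst

omit [Fintype S] [DecidableEq S] in
lemma ix_inj {x y : Bool} : ix s t x = ix s t y ↔ x = y := by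
  constructor
  · intro h
    cases x <;> cases y <;> simp_all [ix]
  · rintro rfl; rfl

lemma V2_mul (g : Art M) {h : Art M} (hh : h ∈ cl M ({s, t} : Set S)) :
    V2 s t (g * h) = V2 s t g * V2 s t h := by
  ext1 x y
  rw [V2, V_mul, Matrix.mul_apply, Matrix.mul_apply, Fintype.sum_bool,
    Fintype.sum_eq_add s t hst]
  · rfl
  · rintro k ⟨hks, hkt⟩
    have h1 : V h k (ix s t y) = 0 := by
      rw [V, Matrix.add_apply, Matrix.one_apply_ne, zero_add, Matrix.mul_apply]
      · apply Finset.sum_eq_zero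
        intro a _
        have e0 : C0 (PR M) h k a = 0 := by
          apply supp_Cm (PR M) _ hh k a
          rintro ⟨(h | h), -⟩
          · exact hks h
          · exact hkt h
        rw [e0, zero_mul]
      · cases y
        · exact hkt
        · exact hks
    rw [h1, mul_zero]

lemma V2_one : V2 s t (1 : Art M) = 1 := by
  ext1 x y
  rw [V2, V_one, Matrix.one_apply, Matrix.one_apply]
  simp only [ix_inj hst]

omit hst in
lemma V2_eq_one {g : Art M} (hst : s ≠ t) (h : C0 (PR M) g = 0) : V2 s t g = 1 := by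
  rw [← V2_one (M := M) hst]
  ext1 x y
  rw [V2, V2, V, V, h, C0, Cm_one]

lemma V2_letter (hM : M s t ≠ 0) (x : Bool) :
    V2 s t (sg M (ix s t x)) x x = - T 2 ∧
    V2 s t (sg M (ix s t x)) x (!x) = T 1 * C (lamR M s t) ∧
    V2 s t (sg M (ix s t x)) (!x) x = 0 ∧
    V2 s t (sg M (ix s t x)) (!x) (!x) = 1 := by
  have hne := ix_ne hst x
  have hM' : M (ix s t x) (ix s t (!x)) ≠ 0 := by
    cases x
    · simpa [ix, M.symmetric] using hM
    · exact hM
  have hl : lamR M (ix s t x) (ix s t (!x)) = lamR M s t := by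
    cases x
    · simp only [lamR, ix, Bool.not_false]; rw [M.symmetric]
    · rfl
  have e : ∀ a c, (single (ix s t x) (ix s t x) (1 : ℝ[T;T⁻¹]) * G0 (PR M)) a c =
      if a = ix s t x then G0 (PR M) (ix s t x) c else 0 := by
    intro a c
    split_ifs with h
    · subst h
      have := Matrix.single_mul_apply_same (1 : ℝ[T;T⁻¹]) (ix s t x) (ix s t x) c (G0 (PR M))
      rw [this, one_mul]
    · exact Matrix.single_mul_apply_of_ne (1 : ℝ[T;T⁻¹]) (ix s t x) (ix s t x) a c h (G0 (PR M))
  refine ⟨?_, ?_, ?_, ?_⟩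
  · rw [V2, V, Matrix.add_apply, C0, Cm_sg, e, if_pos rfl, Matrix.one_apply_eq, G0, gram_self]
    change (1 : ℝ[T;T⁻¹]) + -(1 + (T 1) ^ 2) = _
    rw [T_pow]; norm_num
  · rw [V2, V, Matrix.add_apply, C0, Cm_sg, e, if_pos rfl, Matrix.one_apply_ne hne, G0,
      gram_fin _ _ hne hM', zero_add]
    change T 1 * C (lamR M (ix s t x) (ix s t (!x))) = _
    rw [hl]
  · rw [V2, V, Matrix.add_apply, C0, Cm_sg, e, if_neg hne.symm, Matrix.one_apply_ne hne.symm,
      add_zero]
  · rw [V2, V, Matrix.add_apply, C0, Cm_sg, e, if_neg hne.symm, Matrix.one_apply_eq, add_zero]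

lemma V2_letter_mul (hM : M s t ≠ 0) (x : Bool) {h : Art M} (hh : h ∈ cl M ({s, t} : Set S))
    (y : Bool) :
    V2 s t (sg M (ix s t x) * h) x y =
      - (T 2 * V2 s t h x y) + T 1 * (C (lamR M s t) * V2 s t h (!x) y) ∧
    V2 s t (sg M (ix s t x) * h) (!x) y = V2 s t h (!x) y := by
  obtain ⟨h1, h2, h3, h4⟩ := V2_letter hst hM x
  rw [V2_mul hst _ hh, Matrix.mul_apply, Matrix.mul_apply, Fintype.sum_bool, Fintype.sum_bool]
  cases x <;> simp only [Bool.not_true, Bool.not_false] at h1 h2 h3 h4 ⊢ <;>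
    rw [h1, h2, h3, h4] <;> constructor <;> ring

omit hst in
lemma el_sg (x : Bool) : el (sg M s) (sg M t) x = sg M (ix s t x) := by cases x <;> rfl

omit hst in
lemma ix_mem (x : Bool) : ix s t x ∈ ({s, t} : Set S) := by cases x <;> simp [ix]

omit hst in
lemma wp_mem (l : List Bool) : wp (sg M s) (sg M t) l ∈ cl M ({s, t} : Set S) := by
  induction l with
  | nil => exact one_mem _
  | cons x l ih =>
    rw [wp_cons, el_sg]
    exact mul_mem (sg_mem_cl (ix_mem x)) ih

omit hst in
lemma alt_mem (k : ℕ) : ∀ x : Bool, alt k (sg M (ix s t x)) (sg M (ix s t (!x))) ∈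
    cl M ({s, t} : Set S) := by
  induction k with
  | zero => intro x; exact one_mem _
  | succ k ih =>
    intro x
    rw [alt_succ]
    have := ih (!x)
    rw [Bool.not_not] at this
    exact mul_mem (sg_mem_cl (ix_mem x)) this

/-- closed formula for alternating products -/
lemma V2_alt (hM : M s t ≠ 0) (k : ℕ) (hk : 1 ≤ k) : ∀ x : Bool,
    V2 s t (alt k (sg M (ix s t x)) (sg M (ix s t (!x)))) x (if Even k then x else !x) =
      T k * C (chb (lamR M s t) (k + 1)) ∧
    V2 s t (alt k (sg M (ix s t x)) (sg M (ix s t (!x)))) (!x) (if Even k then x else !x) =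
      T (k - 1) * C (chb (lamR M s t) k) ∧
    V2 s t (alt k (sg M (ix s t x)) (sg M (ix s t (!x)))) x (if Even k then !x else x) =
      - (T (k + 1) * C (chb (lamR M s t) k)) ∧
    V2 s t (alt k (sg M (ix s t x)) (sg M (ix s t (!x)))) (!x) (if Even k then !x else x) =
      - (T k * C (chb (lamR M s t) (k - 1))) := by
  induction k with
  | zero => omega
  | succ k ih =>
    intro x
    rcases Nat.eq_zero_or_pos k with rfl | hk0
    · obtain ⟨h1, h2, h3, h4⟩ := V2_letter hst hM x
      have hodd : ¬ Even (0 + 1) := by decide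
      simp only [if_neg hodd, alt_succ, alt_zero, mul_one]
      rw [h1, h2, h3, h4]
      have c0 : chb (lamR M s t) 0 = 0 := rfl
      have c1 : chb (lamR M s t) 1 = 1 := rfl
      have c2 : chb (lamR M s t) 2 = lamR M s t := by
        change lamR M s t * 1 - 0 = _; ring
      simp [c0, c1, c2]
    · have i := ih hk0 (!x)
      rw [Bool.not_not] at i
      obtain ⟨i1, i2, i3, i4⟩ := i
      have hm := alt_mem (M := M) (s := s) (t := t) k (!x)
      rw [Bool.not_not] at hm
      have hpar : (if Even (k + 1) then x else !x) = (if Even k then !x else x) := by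
        by_cases h : Even k
        · have : ¬ Even (k + 1) := by rw [Nat.even_add_one, not_not]; exact h
          simp [h, this]
        · have : Even (k + 1) := by rw [Nat.even_add_one]; exact h
          simp [h, this]
      have hpar' : (if Even (k + 1) then !x else x) = (if Even k then x else !x) := by
        by_cases h : Even k
        · have : ¬ Even (k + 1) := by rw [Nat.even_add_one, not_not]; exact h
          simp [h, this]
        · have : Even (k + 1) := by rw [Nat.even_add_one]; exact h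
          simp [h, this]
      rw [hpar, hpar', alt_succ]
      obtain ⟨a1, a2⟩ := V2_letter_mul hst hM x hm (if Even k then !x else x)
      obtain ⟨b1, b2⟩ := V2_letter_mul hst hM x hm (if Even k then x else !x)
      rw [a1, a2, b1, b2, i1, i2, i3, i4]
      have c2 : chb (lamR M s t) (k + 1 + 1) =
        lamR M s t * chb (lamR M s t) (k + 1) - chb (lamR M s t) k := rfl
      have c1 : chb (lamR M s t) (k + 1) =
          lamR M s t * chb (lamR M s t) k - chb (lamR M s t) (k - 1) := by
        obtain ⟨j, rfl⟩ : ∃ j, k = j + 1 := ⟨k - 1, by omega⟩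
        rfl
      have cc : chb (lamR M s t) (k + 1 - 1) = chb (lamR M s t) k := rfl
      rw [c2, cc, map_sub, map_mul]
      refine ⟨?_, ?_, ?_, ?_⟩
      · have t1 : (T ((k + 1 : ℕ) : ℤ) : ℝ[T;T⁻¹]) = T 2 * T (k - 1) := by
          rw [← T_add]; congr 1; push_cast; ring
        have t2 : (T ((k + 1 : ℕ) : ℤ) : ℝ[T;T⁻¹]) = T 1 * T k := by
          rw [← T_add]; congr 1; push_cast; ring
        rw [mul_sub]
        conv_rhs => rw [t2]
        nth_rewrite 2 [← t2]
        rw [t1]
        ring
      · congr 2; push_cast; ring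
      · have t1 : (T ((k + 1 : ℕ) + 1) : ℝ[T;T⁻¹]) = T 2 * T k := by
          rw [← T_add]; congr 1; push_cast; ring
        have t2 : (T 2 * T k : ℝ[T;T⁻¹]) = T 1 * T (k + 1) := by
          rw [← T_add, ← T_add]; congr 1; ring
        rw [c1, map_sub, map_mul]
        linear_combination (-(C (lamR M s t) * C (chb (lamR M s t) k))) * (-t2) +
          (C (lamR M s t) * C (chb (lamR M s t) k) - C (chb (lamR M s t) (k - 1))) * t1
      · congr 2

end pair

end Pool.Agent.TH107.RF
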