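import Pool.Agent.TH107.RF.LI

set_option autoImplicit false

namespace Pool.Agent.TH107.RF

open Matrix LaurentPolynomial RFilt
open scoped commutatorElement

/-- the ratio of the two alternating words in two involutions -/
lemma alt_ratio {H : Type*} [Group H] {a b : H} (ha : a * a = 1) (hb : b * b = 1) (m : ℕ) :
    alt m a b * (alt m b a)⁻¹ = (a * b) ^ m := by
  induction m generalizing a b with
  | zero => simp
  | succ m ih =>
    have hb' : b⁻¹ = b := inv_eq_of_mul_eq_one_right hb
    rw [alt_succ, alt_succ, _root_.mul_inv_rev, hb']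
    have e : a * alt m b a * ((alt m a b)⁻¹ * b) = a * (alt m b a * (alt m a b)⁻¹) * b := by group
    rw [e, ih hb ha, ← mul_pow_mul, mul_assoc, ← pow_succ]

section cox
variable {S : Type*} [Fintype S] [DecidableEq S] (M : CoxeterMatrix S)

lemma simple_sq (s : S) : M.simple s * M.simple s = 1 := by
  have h : FreeGroup.of s * FreeGroup.of s ∈ M.relationsSet :=
    ⟨(s, s), by simp [CoxeterMatrix.relation]⟩
  have := PresentedGroup.one_of_mem h
  exact this

lemma simple_pow (s t : S) : (M.simple s * M.simple t) ^ M s t = 1 := by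
  have h : (FreeGroup.of s * FreeGroup.of t) ^ M s t ∈ M.relationsSet := ⟨(s, t), rfl⟩
  exact PresentedGroup.one_of_mem h

/-- the projection of the Artin group to the Coxeter group -/
def toCox : Art M →* M.Group :=
  PresentedGroup.toGroup (f := M.simple) (by
    rintro r ⟨i, j, h, rfl⟩
    rw [map_mul, map_inv, map_alt, map_alt, FreeGroup.lift_apply_of, FreeGroup.lift_apply_of,
      alt_ratio (simple_sq M i) (simple_sq M j), simple_pow])

lemma toCox_sg (s : S) : toCox M (sg M s) = M.simple s := PresentedGroup.toGroup.of _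

variable {M}
variable {L : Type*} [CommRing L] (P : Par M L) {R : Type*} [Ring R] [Algebra L R]
  (b : S → S → R)

lemma gen_sq (hv : P.v = 1) (s : S) : gen P b s * gen P b s = 1 := by
  apply Units.ext
  ext1
  change single s s 1 + single s s 1 + single s s 1 * gram P b * single s s 1 = 0
  rw [single_mul_mul_single, gram_self, hv]
  rw [← single_add, ← single_add]
  have : (1 : R) + 1 + 1 * algebraMap L R (-(1 + 1 ^ 2)) * 1 = 0 := by
    rw [one_mul, mul_one, ← map_one (algebraMap L R), ← map_add, ← map_add]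
    have : (1 + 1 + -(1 + 1 ^ 2) : L) = 0 := by ring
    rw [this, map_zero]
  rw [this]; simp

/-- at `v = 1` the representation factors through the Coxeter group -/
lemma rho_factor (hv : P.v = 1) : ∃ ψ : M.Group →* (Circ (gram P b))ˣ,
    ∀ g, rho P b g = ψ (toCox M g) := by
  have hlift : ∀ r ∈ M.relationsSet, FreeGroup.lift (gen P b) r = 1 := by
    rintro r ⟨⟨i, j⟩, rfl⟩
    change FreeGroup.lift (gen P b) ((FreeGroup.of i * FreeGroup.of j) ^ M i j) = 1
    rw [map_pow, map_mul, FreeGroup.lift_apply_of, FreeGroup.lift_apply_of]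
    by_cases h0 : M i j = 0
    · rw [h0, pow_zero]
    · rw [← alt_ratio (gen_sq P b hv i) (gen_sq P b hv j), gen_braid P b h0, mul_inv_cancel]
  refine ⟨PresentedGroup.toGroup hlift, fun g => ?_⟩
  have : rho P b = (PresentedGroup.toGroup hlift : M.Group →* (Circ (gram P b))ˣ).comp
      (toCox M) := by
    apply PresentedGroup.ext
    intro s
    have h1 : rho P b (sg M s) = gen P b s := PresentedGroup.toGroup.of _
    change rho P b (sg M s) = PresentedGroup.toGroup hlift (toCox M (sg M s))
    rw [h1, toCox_sg]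
    exact (PresentedGroup.toGroup.of _).symm
  rw [this]; rfl

lemma Cm_zero_of_ker (hv : P.v = 1) {g : Art M} (hg : toCox M g = 1) : Cm P b g = 0 := by
  obtain ⟨ψ, hψ⟩ := rho_factor P b hv
  exact (rho_eq_one_iff P b g).1 (by rw [hψ, hg, map_one])

end cox

section filt
variable {S L : Type*} [CommRing L]

/-- the filtration by the powers of an ideal, with the letters of weight `c` -/
noncomputable def filP (S : Type*) (I : Ideal L) (hu : ∀ n : ℕ, n ≠ 0 → IsUnit (n : L)) (c : ℕ) :
    RFilt (FA S L) where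
  J k :=
    { carrier := {f | ∀ w : FreeMonoid (S × S), f.coeff w ∈ I ^ (k - c * w.length)}
      zero_mem' := fun w => by
        rw [MonoidAlgebra.coeff_zero]; exact Ideal.zero_mem _
      add_mem' := fun {f g} hf hg w => by
        rw [MonoidAlgebra.coeff_add, Finsupp.add_apply]; exact Ideal.add_mem _ (hf w) (hg w)
      neg_mem' := fun {f} hf w => by
        rw [MonoidAlgebra.coeff_neg, Finsupp.neg_apply]; exact neg_mem (hf w) }
  zero := by
    ext f
    refine ⟨fun _ => trivial, fun _ w => ?_⟩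
    rw [Nat.zero_sub, pow_zero, Ideal.one_eq_top]; trivial
  anti i := fun f hf w => Ideal.pow_le_pow_right (by omega) (hf w)
  mul i j f g hf hg := by
    classical
    rw [MonoidAlgebra.mul_def]
    apply AddSubgroup.sum_mem
    intro u _
    apply AddSubgroup.sum_mem
    intro v _
    intro w
    rw [MonoidAlgebra.coeff_single, Finsupp.single_apply]
    split_ifs with h
    · have h1 := Ideal.mul_mem_mul (hf u) (hg v)
      rw [← pow_add] at h1
      refine Ideal.pow_le_pow_right ?_ h1
      rw [← h, FreeMonoid.length_mul, Nat.mul_add]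
      omega
    · exact Ideal.zero_mem _
  pure i n f hn hf := by
    intro w
    have h1 := hf w
    rw [MonoidAlgebra.coeff_smul, Finsupp.smul_apply, nsmul_eq_mul] at h1
    obtain ⟨u, hu⟩ := hu n hn
    have h2 : f.coeff w = (↑u⁻¹ : L) * ((n : L) * f.coeff w) := by
      rw [← hu, ← mul_assoc, Units.inv_mul, one_mul]
    rw [h2]
    exact Ideal.mul_mem_left _ _ h1

end filt

lemma unit_nat (n : ℕ) (hn : n ≠ 0) : IsUnit ((n : ℕ) : ℝ[T;T⁻¹]) := by
  have h1 : IsUnit ((n : ℕ) : ℝ) := (Nat.cast_ne_zero.2 hn).isUnit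
  have h2 := h1.map (C : ℝ →+* ℝ[T;T⁻¹])
  rwa [map_natCast] at h2

instance noeth : IsNoetherianRing ℝ[T;T⁻¹] :=
  IsLocalization.isNoetherianRing (Submonoid.powers (Polynomial.X : Polynomial ℝ)) _ inferInstance

section
variable {S : Type*} [Fintype S] [DecidableEq S] {M : CoxeterMatrix S}

/-- separation for the filtration by powers of an ideal -/
lemma filP_sep (b : S → S → FA S ℝ[T;T⁻¹]) (hb : ∀ g : Art M, Cm (PR M) b g = 0 → g = 1)
    {I : Ideal ℝ[T;T⁻¹]} (hI : I ≠ ⊤) (c : ℕ) (g : Art M)
    (hg : ∀ i, g ∈ KF (PR M) b (filP S I unit_nat c) i) : g = 1 := by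
  apply hb
  ext1 x s
  apply MonoidAlgebra.ext
  apply Finsupp.ext
  intro w
  change _ = (0 : ℝ[T;T⁻¹])
  by_contra hne
  obtain ⟨j, hj⟩ := krull hI hne
  have h1 := hg (j + c * w.length) x s w
  rw [Nat.add_sub_cancel] at h1
  exact hj h1

lemma faithful0 (hR : RankTwo M) {g : Art M} (h : Cm (PR M) (bf S ℝ[T;T⁻¹]) g = 0) : g = 1 := by
  by_contra hne
  obtain ⟨x, s, w, hw⟩ := faithful (PR M) (hasP hR) hne
  apply hw
  have : (CG (PR M) g x s) = 0 := congrFun (congrFun h x) s
  rw [this]; rfl

/-- evaluation at `v = 1` -/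
noncomputable def ev1 : ℝ[T;T⁻¹] →+* ℝ := eval₂ (RingHom.id ℝ) 1

lemma ev1_T (n : ℤ) : ev1 (T n) = 1 := by simp [ev1]

lemma ker_ev1_ne : RingHom.ker ev1 ≠ ⊤ := RingHom.ker_ne_top ev1

/-- the pure Artin group lies in the first member of the filtration -/
lemma pure_le : (toCox M).ker ≤
    KF (PR M) (bf S ℝ[T;T⁻¹]) (filP S (RingHom.ker ev1) unit_nat 0) 1 := by
  intro g hg
  rw [MonoidHom.mem_ker] at hg
  rw [mem_KF]
  intro x s w
  rw [Nat.zero_mul, Nat.sub_zero, pow_one, RingHom.mem_ker]
  have h0 : Cm ((PR M).map ev1) (bf S ℝ) g = 0 :=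
    Cm_zero_of_ker _ _ (by change ev1 (T 1) = 1; exact ev1_T 1) hg
  have e : Cm ((PR M).map ev1) (bf S ℝ) g = (CG (PR M) g).map
      (MonoidAlgebra.mapRingHom (FreeMonoid (S × S)) ev1) := by
    apply Cm_nat
    intro a b
    by_cases hab : a = b
    · subst hab
      rw [gram_self, gram_self]
      simp only [MonoidAlgebra.coe_algebraMap, Function.comp_apply,
        MonoidAlgebra.mapRingHom_single, Algebra.algebraMap_self, RingHom.id_apply]
      simp only [Par.map, map_neg, map_add, map_one, map_pow]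
    · by_cases h0 : M a b = 0
      · rw [gram_inf _ _ hab h0, gram_inf _ _ hab h0, bf, bf, MonoidAlgebra.mapRingHom_single,
          map_one]
      · rw [gram_fin _ _ hab h0, gram_fin _ _ hab h0]
        simp only [MonoidAlgebra.coe_algebraMap, Function.comp_apply,
          MonoidAlgebra.mapRingHom_single, Algebra.algebraMap_self, RingHom.id_apply]
        simp only [Par.map, map_mul]
  rw [e] at h0
  have h1 := congrFun (congrFun h0 x) s
  rw [Matrix.map_apply] at h1
  have h2 := congrArg (fun f : FA S ℝ => f.coeff w) h1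
  simp only [MonoidAlgebra.coeff_mapRingHom] at h2
  exact h2

/-- pure Artin groups are residually torsion-free nilpotent -/
theorem pure_rtfn (hR : RankTwo M) {g : Art M} (hg : g ≠ 1) :
    ∃ (K : Subgroup (Art M)) (_ : K.Normal), K ≤ (toCox M).ker ∧ g ∉ K ∧
      Group.IsNilpotent ((toCox M).ker ⧸ K.subgroupOf (toCox M).ker) ∧
      ∀ h ∈ (toCox M).ker, ∀ n : ℕ, n ≠ 0 → h ^ n ∈ K → h ∈ K := by
  set F := filP S (RingHom.ker ev1) unit_nat 0 with hF
  set P := PR M with hP
  set b := bf S ℝ[T;T⁻¹] with hb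
  obtain ⟨k, hk⟩ : ∃ k, g ∉ KF P b F k := by
    by_contra hcon
    push Not at hcon
    exact hg (filP_sep b (fun g h => faithful0 hR h) ker_ev1_ne 0 g hcon)
  refine ⟨(toCox M).ker ⊓ KF P b F k, inferInstance, inf_le_left, fun h => hk h.2, ?_, ?_⟩
  · set N := (toCox M).ker with hN
    set K := ((N ⊓ KF P b F k).subgroupOf N) with hK
    rw [Subgroup.nilpotent_iff_finite_descending_central_series]
    refine ⟨k, fun i => ((KF P b F (i + 1)).subgroupOf N).map (QuotientGroup.mk' K), ⟨?_, ?_⟩, ?_⟩
    · rw [eq_top_iff]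
      intro q _
      obtain ⟨h, rfl⟩ := QuotientGroup.mk'_surjective K q
      exact ⟨h, pure_le h.2, rfl⟩
    · rintro _ i ⟨h, hh, rfl⟩ q
      obtain ⟨u, rfl⟩ := QuotientGroup.mk'_surjective K q
      refine ⟨⁅h, u⁆, ?_, by rw [map_commutatorElement]⟩
      have h1 : (h : Art M) * u * (h : Art M)⁻¹ * (u : Art M)⁻¹ ∈ KF P b F (i + 1 + 1) :=
        KF_comm P b F hh (pure_le u.2)
      exact h1
    · rw [eq_bot_iff]
      rintro _ ⟨h, hh, rfl⟩
      rw [Subgroup.mem_bot]
      change (QuotientGroup.mk h : N ⧸ K) = 1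
      rw [QuotientGroup.eq_one_iff]
      exact ⟨h.2, KF_anti P b F (Nat.le_succ k) hh⟩
  · intro h hh n hn hpow
    exact ⟨hh, KF_pure P b F hn (pure_le hh) hpow.2⟩

end

end Pool.Agent.TH107.RF
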